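import Pool.Agent.Helper99.Alg.Runs

set_option autoImplicit false
set_option linter.unusedSectionVars false

/-!
# Translations of programs between oracles, Turing reductions
-/

namespace Pool.Agent.Helper99.Alg

open Classical Pool.Agent.Helper56.PT

/-- replace the queries of a program -/
def subQ (Q : Prog) : Prog → Prog
  | Prog.id => Prog.id
  | Prog.nil => Prog.nil
  | Prog.hd => Prog.hd
  | Prog.tl => Prog.tl
  | Prog.pair p q => Prog.pair (subQ Q p) (subQ Q q)
  | Prog.comp p q => Prog.comp (subQ Q p) (subQ Q q)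
  | Prog.ite p q r => Prog.ite (subQ Q p) (subQ Q q) (subQ Q r)
  | Prog.loop p => Prog.loop (subQ Q p)
  | Prog.query => Q

/-- the oracle `O` is available with the oracle `O'` at constant cost, by the program `Q` -/
def Sim (O O' : List Bool → Bool) (Q : Prog) : Prop :=
  ∀ x, ∃ n ≤ 8, Run O' Q x (bit (O (bitsOf x))) n

theorem run_subQ {O O' : List Bool → Bool} {Q : Prog} (hQ : Sim O O' Q) {p : Prog} {x y : Dat}
    {n : ℕ} (h : Run O p x y n) : ∃ n' ≤ 8 * n, Run O' (subQ Q p) x y n' := by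
  induction h with
  | id x => exact ⟨1, by norm_num, Run.id x⟩
  | nil x => exact ⟨1, by norm_num, Run.nil x⟩
  | hd x => exact ⟨1, by norm_num, Run.hd x⟩
  | tl x => exact ⟨1, by norm_num, Run.tl x⟩
  | query x =>
    obtain ⟨n, hn, h⟩ := hQ x
    exact ⟨n, by omega, h⟩
  | pair _ _ ih1 ih2 =>
    obtain ⟨n1, h1, r1⟩ := ih1
    obtain ⟨n2, h2, r2⟩ := ih2
    exact ⟨_, by omega, Run.pair r1 r2⟩
  | comp _ _ ih1 ih2 =>
    obtain ⟨n1, h1, r1⟩ := ih1
    obtain ⟨n2, h2, r2⟩ := ih2
    exact ⟨_, by omega, Run.comp r1 r2⟩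
  | iteTrue _ _ ih1 ih2 =>
    obtain ⟨n1, h1, r1⟩ := ih1
    obtain ⟨n2, h2, r2⟩ := ih2
    exact ⟨_, by omega, Run.iteTrue r1 r2⟩
  | iteFalse _ _ ih1 ih2 =>
    obtain ⟨n1, h1, r1⟩ := ih1
    obtain ⟨n2, h2, r2⟩ := ih2
    exact ⟨_, by omega, Run.iteFalse r1 r2⟩
  | loopStop hx => exact ⟨1, by norm_num, Run.loopStop hx⟩
  | loopStep hx _ _ ih1 ih2 =>
    obtain ⟨n1, h1, r1⟩ := ih1
    obtain ⟨n2, h2, r2⟩ := ih2
    exact ⟨_, by omega, Run.loopStep hx r1 r2⟩

theorem eight_mul_le (n l : ℕ) : 8 * (n + 2) ^ l ≤ (n + 2) ^ (l + 3) := by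
  have h1 : 2 ^ 3 ≤ (n + 2) ^ 3 := Nat.pow_le_pow_left (by omega) 3
  rw [pow_add, mul_comm]
  exact Nat.mul_le_mul_left _ (by omega)

theorem runLe_subQ {O O' : List Bool → Bool} {Q : Prog} (hQ : Sim O O' Q) {p : Prog} {x y : Dat}
    {n l : ℕ} (h : RunLe O p x y ((n + 2) ^ l)) :
    RunLe O' (subQ Q p) x y ((n + 2) ^ (l + 3)) := by
  obtain ⟨c, hc, h⟩ := h
  obtain ⟨n', hn', h'⟩ := run_subQ hQ h
  exact ⟨n', by have := eight_mul_le n l; omega, h'⟩

theorem timeBd_subQ {O O' : List Bool → Bool} {Q : Prog} (hQ : Sim O O' Q) {p : Prog} {k l : ℕ}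
    (h : TimeBd O p k l) : TimeBd O' (subQ Q p) k (l + 3) := fun x r hr => by
  obtain ⟨y, hy⟩ := h x r hr
  exact ⟨y, runLe_subQ hQ hy⟩

theorem accepts_subQ {O O' : List Bool → Bool} {Q : Prog} (hQ : Sim O O' Q) {p : Prog} {k l : ℕ}
    (h : TimeBd O p k l) {x r : List Bool} (hr : r.length = (x.length + 2) ^ k) :
    Accepts O' (subQ Q p) x r ↔ Accepts O p x r := by
  obtain ⟨y, c, _, hy⟩ := h x r hr
  obtain ⟨n', _, h'⟩ := run_subQ hQ hy
  constructor
  · rintro ⟨a, b, n, hn⟩
    have h1 := (h'.det hn).1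
    rw [← h1] at hy
    exact ⟨a, b, c, hy⟩
  · rintro ⟨a, b, n, hn⟩
    have h1 := (hy.det hn).1
    rw [← h1] at h'
    exact ⟨a, b, n', h'⟩

theorem inR_sub {O O' : List Bool → Bool} {Q : Prog} (hQ : Sim O O' Q) {A : Set (List Bool)}
    (h : InR O A) : InR O' A := by
  obtain ⟨p, k, l, ht, hp⟩ := h
  refine ⟨subQ Q p, k, l + 3, timeBd_subQ hQ ht, fun x => ?_⟩
  have h1 : Pr ((x.length + 2) ^ k) (Accepts O' (subQ Q p) x) =
      Pr ((x.length + 2) ^ k) (Accepts O p x) := Pr_congr (fun r hr => accepts_subQ hQ ht hr)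
  rw [h1]
  exact hp x

theorem inZPP_sub {O O' : List Bool → Bool} {Q : Prog} (hQ : Sim O O' Q) {A : Set (List Bool)}
    (h : InZPP O A) : InZPP O' A := ⟨inR_sub hQ h.1, inR_sub hQ h.2⟩

theorem inBPP_sub {O O' : List Bool → Bool} {Q : Prog} (hQ : Sim O O' Q) {A : Set (List Bool)}
    (h : InBPP O A) : InBPP O' A := by
  obtain ⟨p, k, l, e, he, ht, hp⟩ := h
  refine ⟨subQ Q p, k, l + 3, e, he, timeBd_subQ hQ ht, fun x => ?_⟩
  have h1 : Pr ((x.length + 2) ^ k) (fun r => Accepts O' (subQ Q p) x r ↔ x ∈ A) =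
      Pr ((x.length + 2) ^ k) (fun r => Accepts O p x r ↔ x ∈ A) :=
    Pr_congr (fun r hr => by rw [accepts_subQ hQ ht hr])
  rw [h1]
  exact hp x

theorem polyFn_sub {O O' : List Bool → Bool} {Q : Prog} (hQ : Sim O O' Q)
    {f : List Bool → List Bool} (h : PolyFn O f) : PolyFn O' f := by
  obtain ⟨p, k, hp⟩ := h
  exact ⟨subQ Q p, k + 3, fun x => runLe_subQ hQ (hp x)⟩

/-- asking for `O` with the prefix `0` -/
theorem sim_prefix {O O' : List Bool → Bool} (h : ∀ w, O' (false :: w) = O w) :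
    Sim O O' (Prog.comp (Prog.pair Prog.nil Prog.id) Prog.query) := by
  intro x
  refine ⟨5, by norm_num, ?_⟩
  have h1 := Run.query (O := O') (Dat.node Dat.leaf x)
  have h2 : bitsOf (Dat.node Dat.leaf x) = false :: bitsOf x := rfl
  rw [h2, h] at h1
  exact Run.comp (Run.pair (Run.nil x) (Run.id x)) h1

/-- the same in the presence of a set -/
theorem sim_join {O O' : List Bool → Bool} (h : ∀ w, O' (false :: w) = O w) (h0 : O' [] = false)
    (L : List Bool → Bool) : Sim (join O L) (join O' L)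
      (Prog.ite Prog.hd Prog.query (Prog.comp (Prog.pair Prog.nil Prog.id) Prog.query)) := by
  have key : ∀ x : Dat, x.hd = Dat.leaf →
      Run (join O' L) (Prog.ite Prog.hd Prog.query
        (Prog.comp (Prog.pair Prog.nil Prog.id) Prog.query)) x
        (bit (O' (bitsOf x))) 7 := by
    intro x hx
    have h1 := Run.query (O := join O' L) (Dat.node Dat.leaf x)
    have h2 : bitsOf (Dat.node Dat.leaf x) = false :: bitsOf x := rfl
    rw [h2] at h1
    have h3 := Run.hd (O := join O' L) x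
    rw [hx] at h3
    exact Run.iteFalse (q := Prog.query) h3
      (Run.comp (Run.pair (Run.nil x) (Run.id x)) h1)
  intro x
  match x with
  | Dat.leaf =>
    refine ⟨7, by norm_num, ?_⟩
    have h1 := key Dat.leaf rfl
    have h2 : bitsOf Dat.leaf = [] := rfl
    rw [h2, h0] at h1
    exact h1
  | Dat.node Dat.leaf t =>
    refine ⟨7, by norm_num, ?_⟩
    have h1 := key (Dat.node Dat.leaf t) rfl
    have h2 : bitsOf (Dat.node Dat.leaf t) = false :: bitsOf t := rfl
    rw [h2, h] at h1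
    rw [h2]
    exact h1
  | Dat.node (Dat.node a b) t =>
    refine ⟨3, by norm_num, ?_⟩
    have h2 : bitsOf (Dat.node (Dat.node a b) t) = true :: bitsOf t := rfl
    rw [h2]
    have h1 := Run.query (O := join O' L) (Dat.node (Dat.node a b) t)
    rw [h2] at h1
    exact Run.iteTrue (r := Prog.comp (Prog.pair Prog.nil Prog.id) Prog.query)
      (Run.hd (Dat.node (Dat.node a b) t)) h1

/-! ### Turing reductions -/

/-- `B` is reducible to `L` by a polynomial time Turing reduction with access to the oracle `O` -/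
def TRed (O : List Bool → Bool) (B L : Set (List Bool)) : Prop :=
  ∃ (p : Prog) (k : ℕ), ∀ x : List Bool,
    RunLe (join O (chi L)) p (enc x) (bit (chi B x)) ((x.length + 2) ^ k)

theorem TRed.sub {O O' : List Bool → Bool} (h : ∀ w, O' (false :: w) = O w) (h0 : O' [] = false)
    {B L : Set (List Bool)} (hr : TRed O B L) : TRed O' B L := by
  obtain ⟨p, k, hp⟩ := hr
  exact ⟨_, k + 3, fun x => runLe_subQ (sim_join h h0 (chi L)) (hp x)⟩

/-- many-one reductions are Turing reductions -/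
theorem TRed.of_many_one {O : List Bool → Bool} {B L : Set (List Bool)}
    {f : List Bool → List Bool} (hf : PolyFn O f) (hB : ∀ x, x ∈ B ↔ f x ∈ L) : TRed O B L := by
  obtain ⟨p, k, hp⟩ := hf
  have hS : Sim O (join O (chi L)) _ := sim_prefix (fun _ => rfl)
  refine ⟨Prog.comp (subQ (Prog.comp (Prog.pair Prog.nil Prog.id) Prog.query) p) (Prog.comp (Prog.pair (Prog.pair Prog.nil Prog.nil) Prog.id)
    Prog.query), k + 4, fun x => ?_⟩
  obtain ⟨c, hc, h⟩ := hp x
  obtain ⟨n', hn', h'⟩ := run_subQ hS h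
  have hq : Run (join O (chi L)) (Prog.comp (Prog.pair (Prog.pair Prog.nil Prog.nil) Prog.id)
      Prog.query) (enc (f x)) (bit (chi B x)) 7 := by
    have h1 := Run.query (O := join O (chi L))
      (Dat.node (Dat.node Dat.leaf Dat.leaf) (enc (f x)))
    have h2 : bitsOf (Dat.node (Dat.node Dat.leaf Dat.leaf) (enc (f x))) = true :: f x := by
      show true :: bitsOf (enc (f x)) = _
      rw [bitsOf_enc]
    rw [h2] at h1
    have h3 : join O (chi L) (true :: f x) = chi B x := by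
      show chi L (f x) = chi B x
      rw [chi, chi, Bool.eq_iff_iff, decide_eq_true_eq, decide_eq_true_eq]
      exact (hB x).symm
    rw [h3] at h1
    exact Run.comp (Run.pair (Run.pair (Run.nil _) (Run.nil _)) (Run.id _)) h1
  refine ⟨_, ?_, Run.comp h' hq⟩
  have h1 : 16 * (x.length + 2) ^ k ≤ (x.length + 2) ^ (k + 4) := by
    have h2 : 2 ^ 4 ≤ (x.length + 2) ^ 4 := Nat.pow_le_pow_left (by omega) 4
    rw [pow_add, mul_comm]
    exact Nat.mul_le_mul_left _ (by omega)
  have h2 : 0 < (x.length + 2) ^ k := by positivity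
  omega

/-- there is a set in `C` to which every set in `C` is reducible by a polynomial time Turing
reduction -/
def HasTComplete (O : List Bool → Bool) (C : Set (List Bool) → Prop) : Prop :=
  ∃ L : Set (List Bool), C L ∧ ∀ B : Set (List Bool), C B → TRed O B L

theorem HasTComplete.of_many_one {O : List Bool → Bool} {C : Set (List Bool) → Prop}
    (h : HasComplete O C) : HasTComplete O C := by
  obtain ⟨L, hL, h⟩ := h
  refine ⟨L, hL, fun B hB => ?_⟩
  obtain ⟨f, hf, hr⟩ := h B hB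
  exact TRed.of_many_one hf hr

end Pool.Agent.Helper99.Alg
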