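import Pool.Agent.Helper99.Alg.Stage
import Pool.Agent.Helper99.Alg.Sub

set_option autoImplicit false
set_option linter.unusedSectionVars false

/-!
# An oracle with a low-degree extension relative to which there are no complete sets
-/

namespace Pool.Agent.Helper99.Alg

open Finset MvPolynomial Classical Pool.Agent.Helper56.PT

variable {ι : Type} {K : ι → Type} [∀ i, Field (K i)]

/-- a state of the construction -/
structure Sta (dec : List Bool → Query ι K) where
  A : List Bool → Bool
  E : ∀ (m : ℕ) (i : ι), MvPolynomial (Fin m) (K i)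
  L : ℕ
  good : Good dec A E L

/-- the initial state -/
noncomputable def sta0 (dec : List Bool → Query ι K) : Sta dec where
  A := dfl
  E := fun _ _ => mle (fun w => dfl (List.ofFn w))
  L := 0
  good := ⟨fun _ _ => ⟨fun j => (degreeOf_mle _ j).trans (by norm_num), fun w => eval_mle _ w⟩,
    fun _ _ => rfl, fun P x => Or.inr (Or.inl (DEA_dfl _ x))⟩

theorem exists_limit [∀ i, Finite (K i)] {dec : List Bool → Query ι K}
    (hdec : ∀ s, (dec s).m ≤ s.length) :
    ∃ (A : List Bool → Bool) (E : ∀ (m : ℕ) (i : ι), MvPolynomial (Fin m) (K i)),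
      IsExt 2 A E ∧ (∀ (P : GD) (g : Prog) (e : ℕ), ReqA dec P g e A E) ∧
      ∀ (P : GD) (x : List Bool), DEA A (nG P) x true ∨ DEA A (nG P) x false ∨
        ¬ Alive (Ext dec A E) P := by
  obtain ⟨en, hen⟩ := exists_surjective_nat (GD × Prog × ℕ)
  have hst : ∀ (s : ℕ) (D : Sta dec), ∃ D' : Sta dec, D.L < D'.L ∧ Low D.L D.A D'.A D.E D'.E ∧
      ∀ A'' E'', Low D'.L D'.A A'' D'.E E'' →
        ReqA dec (en s).1 (en s).2.1 (en s).2.2 A'' E'' := by
    intro s D
    obtain ⟨A', E', L', h1, h2, h3, h4⟩ := stage hdec D.good (en s).1 (en s).2.1 (en s).2.2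
    exact ⟨⟨A', E', L', h2⟩, h1, h3, h4⟩
  choose nx hnx1 hnx2 hnx3 using hst
  let sq : ℕ → Sta dec := fun s => Nat.rec (sta0 dec) (fun s D => nx s D) s
  have hsq : ∀ s, sq (s + 1) = nx s (sq s) := fun s => rfl
  have hL1 : ∀ s, (sq s).L < (sq (s + 1)).L := fun s => by rw [hsq]; exact hnx1 s _
  have hmono : StrictMono (fun s => (sq s).L) := strictMono_nat_of_lt_succ hL1
  have hge : ∀ s, s ≤ (sq s).L := fun s => hmono.id_le s
  have hlow : ∀ s t : ℕ, s ≤ t → Low (sq s).L (sq s).A (sq t).A (sq s).E (sq t).E := by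
    intro s t hst
    obtain ⟨d, rfl⟩ := Nat.exists_eq_add_of_le hst
    clear hst
    induction d with
    | zero => exact Low.refl _ _ _
    | succ d ih =>
      refine ih.trans ?_
      rw [← add_assoc, hsq]
      exact (hnx2 (s + d) (sq (s + d))).mono (hmono.monotone (Nat.le_add_right s d))
  set A : List Bool → Bool := fun w => (sq (w.length + 1)).A w with hA
  set E : ∀ (m : ℕ) (i : ι), MvPolynomial (Fin m) (K i) := fun m i => (sq (m + 1)).E m i with hE
  have hlim : ∀ s, Low (sq s).L (sq s).A A (sq s).E E := by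
    intro s
    refine ⟨fun w hw => ?_, fun m hm i => ?_⟩
    · rcases le_total s (w.length + 1) with h | h
      · exact (hlow s _ h).1 w hw
      · exact ((hlow _ s h).1 w (lt_of_lt_of_le (Nat.lt_succ_self _) (hge _))).symm
    · rcases le_total s (m + 1) with h | h
      · exact (hlow s _ h).2 m hm i
      · exact ((hlow _ s h).2 m (lt_of_lt_of_le (Nat.lt_succ_self _) (hge _)) i).symm
  refine ⟨A, E, fun m i => ?_, fun P g e => ?_, fun P x => ?_⟩
  · have h1 := (sq (m + 1)).good.ext m i
    refine ⟨h1.1, fun w => ?_⟩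
    have h2 : A (List.ofFn w) = (sq (m + 1)).A (List.ofFn w) := by
      rw [hA]
      simp only [List.length_ofFn]
    rw [h2]
    exact h1.2 w
  · obtain ⟨s, hs⟩ := hen (P, g, e)
    have h1 := hnx3 s (sq s) A E (hlim (s + 1))
    rw [hs] at h1
    exact h1
  · set s := blen (nG P) x ((x.length + 2) ^ 3) + 1 with hs
    have hb : ∀ (b : Bool) (r : List Bool), r.length = (x.length + 2) ^ 3 →
        A (st (kT (nG P) b) x r) = (sq s).A (st (kT (nG P) b) x r) := by
      intro b r hr
      refine (hlim s).1 _ ?_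
      have h1 : (st (kT (nG P) b) x r).length = blen (nG P) x ((x.length + 2) ^ 3) := by
        rw [length_st, blen, hr]
        simp [kT]
      rw [h1]
      exact lt_of_lt_of_le (Nat.lt_succ_self _) (hge _)
    rcases (sq s).good.leg P x with h | h | h
    · exact Or.inl (DEA_congr hb h)
    · exact Or.inr (Or.inl (DEA_congr hb h))
    · exact Or.inr (Or.inr (h A E (hlim s)))

/-! ### the test languages are in ZPP -/

/-- a machine that reads the block -/
theorem inR_of_query {O A : List Bool → Bool} {n : ℕ} (b : Bool)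
    (hx : ∀ x : List Bool, DEA A n x true ∨ DEA A n x false)
    (hq : ∃ (p : Prog) (l : ℕ), TimeBd O p 3 l ∧
      ∀ y r : List Bool, r.length = (y.length + 2) ^ 3 →
      (Accepts O p y r ↔ A (st (kT n b) y r) = true)) :
    InR O (if b then Tst A n else (Tst A n)ᶜ) := by
  obtain ⟨p, l, ht, hacc⟩ := hq
  have hmem : ∀ x : List Bool, x ∈ (if b then Tst A n else (Tst A n)ᶜ) ↔ DEA A n x b := by
    intro x
    cases b with
    | true =>
      simp only [if_true]
      constructor
      · intro h
        rcases hx x with h1 | h1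
        · exact h1
        · exact absurd h h1.not_mem
      · exact fun h => h.mem
    | false =>
      simp only [Bool.false_eq_true, if_false, Set.mem_compl_iff]
      constructor
      · intro h
        rcases hx x with h1 | h1
        · exact absurd h1.mem h
        · exact h1
      · exact fun h => h.not_mem
  refine ⟨p, 3, l, ht, fun x => ⟨fun h => ?_, fun h => ?_⟩⟩
  · rw [hmem] at h
    rw [Pr_congr (Q := fun r => A (st (kT n b) x r) = true) (fun r hr => hacc x r hr)]
    exact lt_trans (by norm_num) h.1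
  · rw [hmem] at h
    refine Pr_false _ (fun r hr h1 => ?_)
    rw [hacc x r hr] at h1
    have h2 : DEA A n x (!b) := by
      rcases hx x with h3 | h3 <;> cases b <;> simp_all
    have h3 := h2.2 r hr
    rw [Bool.not_not, h1] at h3
    exact absurd h3 (by simp)

theorem inZPP_of_query {O A : List Bool → Bool} {n : ℕ}
    (hx : ∀ x : List Bool, DEA A n x true ∨ DEA A n x false)
    (hq : ∀ b, ∃ (p : Prog) (l : ℕ), TimeBd O p 3 l ∧
      ∀ y r : List Bool, r.length = (y.length + 2) ^ 3 →
      (Accepts O p y r ↔ A (st (kT n b) y r) = true)) :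
    InZPP O (Tst A n) :=
  ⟨inR_of_query true hx (hq true), inR_of_query false hx (hq false)⟩

theorem inBPP_of_query {O A : List Bool → Bool} {n : ℕ}
    (hx : ∀ x : List Bool, DEA A n x true ∨ DEA A n x false)
    (hq : ∃ (p : Prog) (l : ℕ), TimeBd O p 3 l ∧
      ∀ y r : List Bool, r.length = (y.length + 2) ^ 3 →
      (Accepts O p y r ↔ A (st (kT n true) y r) = true)) :
    InBPP O (Tst A n) := by
  obtain ⟨p, l, ht, hacc⟩ := hq
  refine ⟨p, 3, l, 1 / 4, by norm_num, ht, fun x => ?_⟩
  rcases hx x with h | h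
  · have h1 : Pr ((x.length + 2) ^ 3) (fun r => Accepts O p x r ↔ x ∈ Tst A n) =
        Pr ((x.length + 2) ^ 3) (fun r => A (st (kT n true) x r) = true) :=
      Pr_congr (fun r hr => by rw [hacc x r hr]; simp [h.mem])
    rw [h1]
    linarith [h.1]
  · have h1 : Pr ((x.length + 2) ^ 3) (fun r => Accepts O p x r ↔ x ∈ Tst A n) = 1 := by
      refine Pr_true _ (fun r hr => ?_)
      rw [hacc x r hr]
      have h2 := h.2 r hr
      rw [Bool.not_false] at h2
      simp [h2, h.not_mem]
    rw [h1]
    norm_num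

/-- the negative world -/
theorem neg_world [∀ i, Finite (K i)] {dec : List Bool → Query ι K}
    (hdec : ∀ s, (dec s).m ≤ s.length) :
    ∃ (A : List Bool → Bool) (E : ∀ (m : ℕ) (i : ι), MvPolynomial (Fin m) (K i)),
      IsExt 2 A E ∧ ∀ L : Set (List Bool), InR (Ext dec A E) L ∨ InBPP (Ext dec A E) L →
        ∃ B : Set (List Bool), InZPP A B ∧ InBPP A B ∧ ¬ TRed (Ext dec A E) B L := by
  obtain ⟨A, E, h1, h2, h3⟩ := exists_limit hdec
  refine ⟨A, E, h1, fun L hL => ?_⟩
  obtain ⟨P, hP, rfl⟩ : ∃ P : GD, Alive (Ext dec A E) P ∧ Lang (Ext dec A E) P = L := by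
    rcases hL with hL | hL
    · exact exists_GD_of_R hL
    · exact exists_GD_of_BPP hL
  have hx : ∀ x : List Bool, DEA A (nG P) x true ∨ DEA A (nG P) x false := by
    intro x
    rcases h3 P x with h | h | h
    · exact Or.inl h
    · exact Or.inr h
    · exact absurd hP h
  refine ⟨Tst A (nG P), inZPP_of_query hx (fun b => exists_query A (kT (nG P) b)),
    inBPP_of_query hx (exists_query A (kT (nG P) true)), ?_⟩
  rintro ⟨g, e, hf⟩
  exact h2 P g e hP hf

end Pool.Agent.Helper99.Alg
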