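import Mathlib

set_option autoImplicit false

/-!
# Sampling: Chebyshev's inequality for counting
-/

namespace Pool.Agent.Helper99.Alg

open Finset Classical

variable {R : Type} [Fintype R]

theorem sum_cons (s : ℕ) (F : (Fin (s + 1) → R) → ℝ) :
    ∑ ρ, F ρ = ∑ r, ∑ ρ' : Fin s → R, F (Fin.cons r ρ') := by
  rw [← Fintype.sum_prod_type' (f := fun r (ρ' : Fin s → R) => F (Fin.cons r ρ'))]
  exact (Fintype.sum_equiv (Fin.consEquiv (fun _ => R)) _ _ (fun x => rfl)).symm

theorem sum_first (f : R → ℝ) (hf : ∑ r, f r = 0) (s : ℕ) :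
    ∑ ρ : Fin s → R, ∑ i, f (ρ i) = 0 := by
  induction s with
  | zero => simp
  | succ s ih =>
    rw [sum_cons]
    simp only [Fin.sum_univ_succ, Fin.cons_zero, Fin.cons_succ, sum_add_distrib]
    rw [ih]
    simp only [sum_const, smul_zero, add_zero]
    rw [← smul_sum, hf, smul_zero]

theorem sum_second (f : R → ℝ) (hf : ∑ r, f r = 0) (s : ℕ) :
    (∑ ρ : Fin s → R, (∑ i, f (ρ i)) ^ 2) * Fintype.card R =
      s * (Fintype.card R : ℝ) ^ s * ∑ r, f r ^ 2 := by
  induction s with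
  | zero => simp
  | succ s ih =>
    rw [sum_cons]
    simp only [Fin.sum_univ_succ, Fin.cons_zero, Fin.cons_succ, add_sq, sum_add_distrib]
    have h1 : ∑ r : R, ∑ ρ' : Fin s → R, 2 * f r * ∑ i, f (ρ' i) = 0 := by
      refine sum_eq_zero fun r _ => ?_
      rw [← mul_sum, sum_first f hf, mul_zero]
    rw [h1, add_zero]
    simp only [sum_const, card_univ, nsmul_eq_mul, Fintype.card_fun, Fintype.card_fin]
    rw [← mul_sum]
    push_cast
    rw [add_mul, mul_assoc (Fintype.card R : ℝ), ih]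
    ring

/-- number of accepting samples -/
noncomputable def cnt (a : R → Prop) {s : ℕ} (ρ : Fin s → R) : ℕ :=
  (univ.filter (fun i => a (ρ i))).card

/-- Chebyshev's inequality -/
theorem cheb (a : R → Prop) (μ t : ℝ) (hR : 0 < Fintype.card R)
    (hμ : ((univ.filter a).card : ℝ) = μ * Fintype.card R) (ht : 0 < t) (s : ℕ) :
    ((univ.filter (fun ρ : Fin s → R => t ≤ |(cnt a ρ : ℝ) - s * μ|)).card : ℝ) * (4 * t ^ 2) ≤
      s * (Fintype.card R : ℝ) ^ s := by
  have hR' : (0 : ℝ) < Fintype.card R := by exact_mod_cast hR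
  set f : R → ℝ := fun r => (if a r then 1 else 0) - μ with hf
  have hsa : ∑ r, (if a r then (1 : ℝ) else 0) = μ * Fintype.card R := by
    rw [← hμ, card_filter]
    push_cast
    rfl
  have hf0 : ∑ r, f r = 0 := by
    rw [hf]
    simp only [sum_sub_distrib, sum_const, card_univ, nsmul_eq_mul]
    rw [hsa]
    ring
  have hf2 : ∑ r, f r ^ 2 ≤ Fintype.card R / 4 := by
    have h1 : ∀ r, f r ^ 2 = (1 - 2 * μ) * (if a r then 1 else 0) + μ ^ 2 := by
      intro r
      rw [hf]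
      simp only
      split_ifs <;> ring
    rw [sum_congr rfl (fun r _ => h1 r), sum_add_distrib, ← mul_sum, hsa, sum_const, card_univ,
      nsmul_eq_mul]
    nlinarith [mul_nonneg hR'.le (sq_nonneg (2 * μ - 1))]
  have hcnt : ∀ ρ : Fin s → R, ∑ i, f (ρ i) = (cnt a ρ : ℝ) - s * μ := by
    intro ρ
    rw [hf, cnt, card_filter]
    simp only [sum_sub_distrib, sum_const, card_univ, Fintype.card_fin, nsmul_eq_mul]
    push_cast
    rfl
  have h2 := sum_second f hf0 s
  have h3 : ((univ.filter (fun ρ : Fin s → R => t ≤ |(cnt a ρ : ℝ) - s * μ|)).card : ℝ) * t ^ 2 ≤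
      ∑ ρ : Fin s → R, (∑ i, f (ρ i)) ^ 2 := by
    rw [← nsmul_eq_mul, ← sum_const]
    refine le_trans (sum_le_sum (fun ρ hρ => ?_)) (sum_le_sum_of_subset_of_nonneg
      (filter_subset _ _) (fun ρ _ _ => sq_nonneg _))
    rw [hcnt, ← sq_abs ((cnt a ρ : ℝ) - s * μ)]
    exact pow_le_pow_left₀ ht.le (mem_filter.1 hρ).2 2
  have h4 : (Fintype.card R : ℝ) * (((univ.filter (fun ρ : Fin s → R =>
      t ≤ |(cnt a ρ : ℝ) - s * μ|)).card : ℝ) * (4 * t ^ 2)) ≤
      Fintype.card R * (s * (Fintype.card R : ℝ) ^ s) := by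
    have h5 : (s * (Fintype.card R : ℝ) ^ s) * ∑ r, f r ^ 2 ≤
        (s * (Fintype.card R : ℝ) ^ s) * (Fintype.card R / 4) :=
      mul_le_mul_of_nonneg_left hf2 (by positivity)
    nlinarith
  exact le_of_mul_le_mul_left h4 hR'

end Pool.Agent.Helper99.Alg
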