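import Mathlib

set_option autoImplicit false

/-!
# A gap machine with few queries cannot separate the two sides of a test block

Abstract form: contents `p : Ω`, positions `y : Pos`, cube points `w : W`, random strings `r : R`.
-/

namespace Pool.Agent.Helper99.Alg

open Finset Classical

/-- The abstract setting. -/
structure Setup (Ω Pos W R : Type) [Fintype Ω] [Fintype R] where
  /-- two contents agree at a position -/
  ag : Pos → Ω → Ω → Prop
  ag_refl : ∀ y p, ag y p p
  ag_symm : ∀ y p p', ag y p p' → ag y p' p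
  ag_trans : ∀ y p p' p'', ag y p p' → ag y p' p'' → ag y p p''
  /-- the Boolean content -/
  ct : Ω → Finset W
  /-- the cube points determined by the positions -/
  bad : Finset Pos → Finset W
  bad_mono : ∀ Y Y', Y ⊆ Y' → bad Y ⊆ bad Y'
  bad_card : ∀ Y, (bad Y).card ≤ Y.card
  flip : ∀ (Y : Finset Pos) (p0 : Ω) (w : W) (a : Finset W), w ∉ bad Y → w ∉ a →
    (univ.filter (fun p => ct p = a ∧ ∀ y ∈ Y, ag y p0 p)).card =
      (univ.filter (fun p => ct p = insert w a ∧ ∀ y ∈ Y, ag y p0 p)).card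
  /-- the positions queried by a run -/
  Q : R → Ω → Finset Pos
  /-- the outcome of a run -/
  out : R → Ω → Prop
  k : ℕ
  Q_card : ∀ r p, (Q r p).card ≤ k
  det : ∀ r p p', (∀ y ∈ Q r p, ag y p p') → Q r p' = Q r p ∧ (out r p' ↔ out r p)

variable {Ω Pos W R : Type} [Fintype Ω] [Fintype R]

namespace Setup

variable (S : Setup Ω Pos W R)

/-- agreement on a set of positions -/
def Ag (Y : Finset Pos) (p p' : Ω) : Prop := ∀ y ∈ Y, S.ag y p p'

/-- the class of a state -/
noncomputable def cls (Y : Finset Pos) (a : Finset W) (p0 : Ω) : Finset Ω :=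
  univ.filter (fun p => S.ct p = a ∧ S.Ag Y p0 p)

/-- number of accepting runs -/
noncomputable def acc (p : Ω) : ℝ := ((univ.filter (fun r => S.out r p)).card : ℝ)

theorem mem_cls {Y : Finset Pos} {a : Finset W} {p0 p : Ω} :
    p ∈ S.cls Y a p0 ↔ S.ct p = a ∧ S.Ag Y p0 p := by
  simp [cls]

theorem Ag.refl (Y : Finset Pos) (p : Ω) : S.Ag Y p p := fun y _ => S.ag_refl y p

theorem Ag.symm {Y : Finset Pos} {p p' : Ω} (h : S.Ag Y p p') : S.Ag Y p' p :=
  fun y hy => S.ag_symm y p p' (h y hy)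

theorem Ag.trans {Y : Finset Pos} {p p' p'' : Ω} (h : S.Ag Y p p') (h' : S.Ag Y p' p'') :
    S.Ag Y p p'' := fun y hy => S.ag_trans y p p' p'' (h y hy) (h' y hy)

theorem Ag.mono {Y Y' : Finset Pos} {p p' : Ω} (h : S.Ag Y' p p') (hY : Y ⊆ Y') : S.Ag Y p p' :=
  fun y hy => h y (hY hy)

theorem det' {r : R} {Y : Finset Pos} {p p' : Ω} (h : S.Ag (Y ∪ S.Q r p) p p') :
    S.Q r p' = S.Q r p ∧ (S.out r p' ↔ S.out r p) :=
  S.det r p p' (fun y hy => h y (mem_union_right _ hy))

/-- transcripts with a given run are an equivalence relation -/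
theorem tr_symm {r : R} {Y : Finset Pos} {p p' : Ω} (h : S.Ag (Y ∪ S.Q r p) p p') :
    S.Ag (Y ∪ S.Q r p') p' p := by
  rw [(S.det' h).1]
  exact Ag.symm S h

theorem tr_trans {r : R} {Y : Finset Pos} {p p' p'' : Ω} (h : S.Ag (Y ∪ S.Q r p) p p')
    (h' : S.Ag (Y ∪ S.Q r p') p' p'') : S.Ag (Y ∪ S.Q r p) p p'' := by
  rw [(S.det' h).1] at h'
  exact Ag.trans S h h'

/-- the class of a transcript -/
theorem sub_cls {r : R} {Y : Finset Pos} {a : Finset W} {p0 p : Ω} (hp : p ∈ S.cls Y a p0)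
    {p' : Ω} (hp' : p' ∈ S.cls (Y ∪ S.Q r p) a p) : p' ∈ S.cls Y a p0 := by
  rw [mem_cls] at hp hp' ⊢
  exact ⟨hp'.1, Ag.trans S hp.2 (Ag.mono S hp'.2 subset_union_left)⟩

theorem cls_eq {r : R} {Y : Finset Pos} {a : Finset W} {p p' : Ω}
    (hp' : p' ∈ S.cls (Y ∪ S.Q r p) a p) :
    S.cls (Y ∪ S.Q r p') a p' = S.cls (Y ∪ S.Q r p) a p := by
  rw [mem_cls] at hp'
  ext x
  rw [mem_cls, mem_cls]
  constructor
  · rintro ⟨h1, h2⟩
    exact ⟨h1, S.tr_trans hp'.2 h2⟩
  · rintro ⟨h1, h2⟩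
    exact ⟨h1, S.tr_trans (S.tr_symm hp'.2) h2⟩

/-- averaging over the transcripts -/
theorem exists_class {Y : Finset Pos} {a : Finset W} {p0 : Ω} (φ : R → Ω → ℝ)
    (h : 0 < ∑ r, ∑ p ∈ S.cls Y a p0, φ r p) :
    ∃ r, ∃ p ∈ S.cls Y a p0, 0 < ∑ p' ∈ S.cls (Y ∪ S.Q r p) a p, φ r p' := by
  by_contra hn
  push Not at hn
  refine absurd h (not_lt.2 (sum_nonpos fun r _ => ?_))
  have h1 := Finset.sum_fiberwise_of_maps_to (s := S.cls Y a p0)
    (t := (S.cls Y a p0).image (fun p => S.cls (Y ∪ S.Q r p) a p))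
    (g := fun p => S.cls (Y ∪ S.Q r p) a p) (fun p hp => mem_image_of_mem _ hp) (φ r)
  rw [← h1]
  refine sum_nonpos fun c hc => ?_
  obtain ⟨p, hp, rfl⟩ := mem_image.1 hc
  have h2 : (S.cls Y a p0).filter
      (fun p' => S.cls (Y ∪ S.Q r p') a p' = S.cls (Y ∪ S.Q r p) a p) =
      S.cls (Y ∪ S.Q r p) a p := by
    ext p'
    rw [mem_filter]
    constructor
    · rintro ⟨h3, h4⟩
      rw [← h4, mem_cls]
      exact ⟨(S.mem_cls.1 h3).1, Ag.refl S _ _⟩
    · intro h3
      exact ⟨S.sub_cls hp h3, S.cls_eq h3⟩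
  rw [h2]
  exact hn r p hp

/-- number of contents in a set with value 1 -/
noncomputable def n1 (G : Ω → Prop) (C : Finset Ω) : ℝ := ((C.filter G).card : ℝ)

/-- number of contents in a set with value 0 -/
noncomputable def n0 (G : Ω → Prop) (C : Finset Ω) : ℝ := ((C.filter (fun p => ¬ G p)).card : ℝ)

omit [Fintype Ω] in
theorem n_add (G : Ω → Prop) (C : Finset Ω) : n1 G C + n0 G C = C.card := by
  rw [n1, n0]
  exact_mod_cast card_filter_add_card_filter_not (s := C) G

omit [Fintype Ω] in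
theorem n1_nonneg (G : Ω → Prop) (C : Finset Ω) : 0 ≤ n1 G C := by rw [n1]; positivity

omit [Fintype Ω] in
theorem n0_nonneg (G : Ω → Prop) (C : Finset Ω) : 0 ≤ n0 G C := by rw [n0]; positivity

/-- the gap -/
structure Gap (G : Ω → Prop) (α β : ℝ) (q : ℕ) : Prop where
  hq : 1 ≤ q
  hα : 0 ≤ α
  hαβ : α + 1 / q ≤ β
  hβ : β ≤ 1
  lo : ∀ p, ¬ G p → S.acc p ≤ α * Fintype.card R
  hi : ∀ p, G p → β * Fintype.card R ≤ S.acc p

variable {S}

theorem sum_out (p : Ω) (c : ℝ) :
    ∑ r, (if S.out r p then 0 else c) = (Fintype.card R - S.acc p) * c := by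
  have h1 : ∀ r, (if S.out r p then (0 : ℝ) else c) = c - (if S.out r p then c else 0) := by
    intro r; split_ifs <;> ring
  rw [sum_congr rfl (fun r _ => h1 r), sum_sub_distrib, ← sum_filter, sum_const, sum_const,
    acc, nsmul_eq_mul, nsmul_eq_mul, card_univ]
  ring

omit [Fintype Ω] in
theorem sum_G (G : Ω → Prop) (C : Finset Ω) (u v : ℝ) :
    ∑ p ∈ C, (if G p then u else v) = n1 G C * u + n0 G C * v := by
  rw [sum_ite, sum_const, sum_const, nsmul_eq_mul, nsmul_eq_mul, n1, n0]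

/-- one rejecting run improves the odds -/
theorem refine_one {G : Ω → Prop} {α β : ℝ} {q : ℕ} (hG : S.Gap G α β q) (hR : 0 < Fintype.card R)
    {Y : Finset Pos} {a : Finset W} {p0 : Ω} (h0 : 0 < n0 G (S.cls Y a p0))
    (h1 : 0 < n1 G (S.cls Y a p0)) :
    ∃ r, ∃ p ∈ S.cls Y a p0,
      (1 + 1 / (q : ℝ)) * n0 G (S.cls Y a p0) * n1 G (S.cls (Y ∪ S.Q r p) a p) <
        n1 G (S.cls Y a p0) * n0 G (S.cls (Y ∪ S.Q r p) a p) := by
  set C := S.cls Y a p0 with hC
  set φ : R → Ω → ℝ := fun r p => if S.out r p then 0 else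
    (if G p then -((1 + 1 / (q : ℝ)) * n0 G C) else n1 G C) with hφ
  have hR' : (0 : ℝ) < Fintype.card R := by exact_mod_cast hR
  have hq : (0 : ℝ) < q := by exact_mod_cast hG.hq
  have hβ0 : 0 < β := by
    have := hG.hα; have := hG.hαβ
    have : (0 : ℝ) < 1 / q := by positivity
    linarith
  have hsum : 0 < ∑ r, ∑ p ∈ C, φ r p := by
    rw [sum_comm]
    have h2 : ∀ p ∈ C, (if G p then -((1 + 1 / (q : ℝ)) * n0 G C) * ((1 - β) * Fintype.card R)
        else n1 G C * ((1 - α) * Fintype.card R)) ≤ ∑ r, φ r p := by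
      intro p _
      rw [hφ]
      simp only
      rw [sum_out]
      split_ifs with hg
      · have := hG.hi p hg
        have h3 : (0 : ℝ) ≤ (1 + 1 / (q : ℝ)) * n0 G C := by positivity
        nlinarith
      · have := hG.lo p hg
        nlinarith
    refine lt_of_lt_of_le ?_ (sum_le_sum h2)
    rw [sum_G]
    have h4 : 0 < n1 G C * n0 G C * Fintype.card R := by positivity
    have h5 : 0 < (1 - α) - (1 + 1 / (q : ℝ)) * (1 - β) := by
      have h6 : 0 < 1 / (q : ℝ) * β := by positivity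
      have := hG.hαβ
      nlinarith
    nlinarith [mul_pos h4 h5]
  obtain ⟨r, p, hp, h2⟩ := S.exists_class φ hsum
  refine ⟨r, p, hp, ?_⟩
  set C' := S.cls (Y ∪ S.Q r p) a p with hC'
  have hout : ∀ p' ∈ C', (S.out r p' ↔ S.out r p) := fun p' hp' =>
    (S.det' (S.mem_cls.1 hp').2).2
  by_cases ho : S.out r p
  · have h3 : ∑ p' ∈ C', φ r p' = 0 := by
      refine sum_eq_zero fun p' hp' => ?_
      rw [hφ]
      simp only
      rw [if_pos ((hout p' hp').2 ho)]
    rw [h3] at h2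
    exact absurd h2 (lt_irrefl _)
  · have h3 : ∑ p' ∈ C', φ r p' = ∑ p' ∈ C',
        (if G p' then -((1 + 1 / (q : ℝ)) * n0 G C) else n1 G C) := by
      refine sum_congr rfl fun p' hp' => ?_
      rw [hφ]
      simp only
      rw [if_neg (fun h => ho ((hout p' hp').1 h))]
    rw [h3, sum_G] at h2
    nlinarith

/-- `T` rejecting runs -/
theorem refine_many {G : Ω → Prop} {α β : ℝ} {q : ℕ} (hG : S.Gap G α β q)
    (hR : 0 < Fintype.card R) {Y : Finset Pos} {p0 : Ω}
    (h0 : 0 < n0 G (S.cls Y (S.ct p0) p0))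
    (h1 : n1 G (S.cls Y (S.ct p0) p0) ≤ 2 * q * n0 G (S.cls Y (S.ct p0) p0)) (T : ℕ) :
    ∃ (Y' : Finset Pos) (p' : Ω), Y ⊆ Y' ∧ Y'.card ≤ Y.card + S.k * T ∧ S.ct p' = S.ct p0 ∧
      0 < n0 G (S.cls Y' (S.ct p0) p') ∧
      n1 G (S.cls Y' (S.ct p0) p') * (1 + 1 / (q : ℝ)) ^ T ≤
        2 * q * n0 G (S.cls Y' (S.ct p0) p') := by
  induction T with
  | zero => exact ⟨Y, p0, Subset.refl _, by simp, rfl, h0, by simpa using h1⟩
  | succ T ih =>
    obtain ⟨Y1, p1, hY, hc, hct, h2, h3⟩ := ih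
    have hq : (0 : ℝ) < q := by exact_mod_cast hG.hq
    have hq1 : (0 : ℝ) < 1 + 1 / (q : ℝ) := by positivity
    rcases (n1_nonneg G (S.cls Y1 (S.ct p0) p1)).eq_or_lt with h4 | h4
    · refine ⟨Y1, p1, hY, hc.trans (by gcongr; omega), hct, h2, ?_⟩
      rw [← h4, zero_mul]
      exact mul_nonneg (by positivity) h2.le
    · obtain ⟨r, p, hp, h5⟩ := refine_one hG hR h2 h4
      refine ⟨Y1 ∪ S.Q r p, p, hY.trans subset_union_left, ?_, (S.mem_cls.1 hp).1, ?_, ?_⟩
      · have := card_union_le Y1 (S.Q r p)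
        have := S.Q_card r p
        rw [Nat.mul_succ]
        omega
      · by_contra hn
        have h6 : n0 G (S.cls (Y1 ∪ S.Q r p) (S.ct p0) p) = 0 :=
          le_antisymm (not_lt.1 hn) (n0_nonneg _ _)
        rw [h6, mul_zero] at h5
        have h7 := n1_nonneg G (S.cls (Y1 ∪ S.Q r p) (S.ct p0) p)
        have : 0 ≤ (1 + 1 / (q : ℝ)) * n0 G (S.cls Y1 (S.ct p0) p1) *
          n1 G (S.cls (Y1 ∪ S.Q r p) (S.ct p0) p) := by positivity
        linarith
      · set x := n0 G (S.cls Y1 (S.ct p0) p1) with hx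
        set y := n1 G (S.cls Y1 (S.ct p0) p1) with hy
        set x' := n0 G (S.cls (Y1 ∪ S.Q r p) (S.ct p0) p) with hx'
        set y' := n1 G (S.cls (Y1 ∪ S.Q r p) (S.ct p0) p) with hy'
        have hpow : (0 : ℝ) < (1 + 1 / (q : ℝ)) ^ T := by positivity
        have hx'0 : 0 ≤ x' := n0_nonneg _ _
        have h8 : x * (y' * (1 + 1 / (q : ℝ)) ^ (T + 1)) ≤ x * (2 * q * x') := by
          calc x * (y' * (1 + 1 / (q : ℝ)) ^ (T + 1))
              = ((1 + 1 / (q : ℝ)) * x * y') * (1 + 1 / (q : ℝ)) ^ T := by ring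
            _ ≤ (y * x') * (1 + 1 / (q : ℝ)) ^ T := by
                exact mul_le_mul_of_nonneg_right h5.le hpow.le
            _ = (y * (1 + 1 / (q : ℝ)) ^ T) * x' := by ring
            _ ≤ (2 * q * x) * x' := mul_le_mul_of_nonneg_right h3 hx'0
            _ = x * (2 * q * x') := by ring
        exact le_of_mul_le_mul_left h8 h2

/-- The parameters. -/
structure Par (k q T D K J L : ℕ) : Prop where
  hk : 1 ≤ k
  hq : 1 ≤ q
  hK : K = k * (T + 1)
  hL : L = 16 * q * K
  hJ : J = 13 * L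
  hD : D = 2 * K * (J + 1) + k
  hT : 2 * q * (D : ℝ) ≤ K * (1 + 1 / (q : ℝ)) ^ T

/-- the fresh bad points of a run -/
noncomputable def new (S : Setup Ω Pos W R) (Y : Finset Pos) (r : R) (p : Ω) : Finset W :=
  S.bad (Y ∪ S.Q r p) \ S.bad Y

theorem card_new_le {D : ℕ} {Y : Finset Pos} (hY : Y.card + S.k ≤ D) (r : R) (p : Ω) :
    (new S Y r p).card ≤ D := by
  have h1 : (new S Y r p).card ≤ (S.bad (Y ∪ S.Q r p)).card := card_le_card sdiff_subset
  have h2 := S.bad_card (Y ∪ S.Q r p)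
  have h3 := card_union_le Y (S.Q r p)
  have h4 := S.Q_card r p
  omega

/-- light states -/
def Light (S : Setup Ω Pos W R) (K : ℕ) (Y : Finset Pos) (p0 : Ω) : Prop :=
  ∑ r, ∑ p ∈ S.cls Y (S.ct p0) p0, ((new S Y r p).card : ℝ) ≤
    4 * K * Fintype.card R * (S.cls Y (S.ct p0) p0).card

/-- conditioning on a run with many fresh bad points -/
theorem heavy_step {G : Ω → Prop} {K D : ℕ} (hR : 0 < Fintype.card R) {Y : Finset Pos} {p0 : Ω}
    (hY : Y.card + S.k ≤ D)
    (hsm : n1 G (S.cls Y (S.ct p0) p0) * D ≤ K * (S.cls Y (S.ct p0) p0).card)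
    (hh : ¬ Light S K Y p0) :
    ∃ (Y' : Finset Pos) (p' : Ω), Y ⊆ Y' ∧ Y'.card ≤ Y.card + S.k ∧ S.ct p' = S.ct p0 ∧
      (S.bad Y).card + 2 * K < (S.bad Y').card ∧ 0 < n0 G (S.cls Y' (S.ct p0) p') ∧
      n1 G (S.cls Y' (S.ct p0) p') ≤ n0 G (S.cls Y' (S.ct p0) p') := by
  set C := S.cls Y (S.ct p0) p0 with hC
  rw [Light, not_le] at hh
  have hR' : (0 : ℝ) < Fintype.card R := by exact_mod_cast hR
  set φ : R → Ω → ℝ := fun r p => ((new S Y r p).card : ℝ) +
    (if G p then -(2 * (D : ℝ)) - 2 * K else - (2 * (K : ℝ))) with hφ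
  have hsum : 0 < ∑ r, ∑ p ∈ C, φ r p := by
    have h1 : ∑ r, ∑ p ∈ C, φ r p = ∑ r, ∑ p ∈ C, ((new S Y r p).card : ℝ) +
        Fintype.card R * (-(2 * (D : ℝ)) * n1 G C - 2 * K * C.card) := by
      rw [hφ]
      simp only [sum_add_distrib]
      rw [sum_const, sum_G, nsmul_eq_mul, card_univ, ← n_add G C]
      ring
    rw [h1]
    have h2 : (Fintype.card R : ℝ) * (n1 G C * D) ≤ Fintype.card R * (K * C.card) :=
      mul_le_mul_of_nonneg_left hsm hR'.le
    nlinarith
  obtain ⟨r, p, hp, h2⟩ := S.exists_class φ hsum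
  set C' := S.cls (Y ∪ S.Q r p) (S.ct p0) p with hC'
  have hnew : ∀ p' ∈ C', new S Y r p' = new S Y r p := fun p' hp' => by
    rw [new, new, (S.det' (S.mem_cls.1 hp').2).1]
  have hpC' : p ∈ C' := S.mem_cls.2 ⟨(S.mem_cls.1 hp).1, Ag.refl S _ _⟩
  have hcard : 0 < C'.card := card_pos.2 ⟨p, hpC'⟩
  have h3 : ∑ p' ∈ C', φ r p' = (new S Y r p).card * (C'.card : ℝ) -
      2 * D * n1 G C' - 2 * K * C'.card := by
    have h4 : ∑ p' ∈ C', φ r p' = ∑ p' ∈ C', (((new S Y r p).card : ℝ) +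
        (if G p' then -(2 * (D : ℝ)) - 2 * K else - (2 * (K : ℝ)))) :=
      sum_congr rfl fun p' hp' => by rw [hφ]; simp only; rw [hnew p' hp']
    rw [h4, sum_add_distrib, sum_const, sum_G, nsmul_eq_mul, ← n_add G C']
    ring
  rw [h3] at h2
  have hcard' : (0 : ℝ) < C'.card := by exact_mod_cast hcard
  have hn1 := n1_nonneg G C'
  have hnD : ((new S Y r p).card : ℝ) ≤ D := by exact_mod_cast card_new_le hY r p
  have hD0 : (0 : ℝ) ≤ D := by positivity
  have h5 : (2 * K : ℝ) < (new S Y r p).card := by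
    by_contra hn
    push Not at hn
    have h6 := mul_le_mul_of_nonneg_right hn hcard'.le
    have : 0 ≤ 2 * D * n1 G C' := by positivity
    linarith
  have h6 : 2 * K < (new S Y r p).card := by exact_mod_cast h5
  have h7 : n1 G C' < n0 G C' := by
    have h8 := n_add G C'
    by_contra hn
    push Not at hn
    have h9 : (C'.card : ℝ) ≤ 2 * n1 G C' := by linarith
    have h10 : ((new S Y r p).card : ℝ) * C'.card ≤ D * (2 * n1 G C') :=
      mul_le_mul hnD h9 hcard'.le hD0
    have : (0 : ℝ) ≤ 2 * K * C'.card := by positivity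
    linarith
  refine ⟨Y ∪ S.Q r p, p, subset_union_left, ?_, (S.mem_cls.1 hp).1, ?_, lt_of_le_of_lt hn1 h7,
    h7.le⟩
  · have := card_union_le Y (S.Q r p)
    have := S.Q_card r p
    omega
  · have h8 := S.bad_mono Y (Y ∪ S.Q r p) subset_union_left
    have h9 : (new S Y r p).card = (S.bad (Y ∪ S.Q r p)).card - (S.bad Y).card := by
      rw [new, card_sdiff_of_subset h8]
    omega

omit [Fintype Ω] in
theorem small_of_odds {k q T D K J L : ℕ} (hP : Par k q T D K J L) {G : Ω → Prop} {C : Finset Ω}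
    (h12 : n1 G C * (1 + 1 / (q : ℝ)) ^ T ≤ 2 * q * n0 G C) :
    n1 G C * D ≤ K * C.card := by
  have h3 := hP.hT
  have h4 := n1_nonneg G C
  have h5 := n_add G C
  have hq : (1 : ℝ) ≤ q := by exact_mod_cast hP.hq
  have hq0 : (0 : ℝ) < 2 * q := by positivity
  have hpow : (0 : ℝ) < (1 + 1 / (q : ℝ)) ^ T := by positivity
  have hK0 : (0 : ℝ) ≤ K := by positivity
  have h6 : (2 * (q : ℝ)) * (n1 G C * D) ≤ (2 * q) * (K * n0 G C) := by
    calc (2 * (q : ℝ)) * (n1 G C * D)
        = n1 G C * (2 * q * D) := by ring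
      _ ≤ n1 G C * (K * (1 + 1 / (q : ℝ)) ^ T) := mul_le_mul_of_nonneg_left h3 h4
      _ = K * (n1 G C * (1 + 1 / (q : ℝ)) ^ T) := by ring
      _ ≤ K * (2 * q * n0 G C) := mul_le_mul_of_nonneg_left h12 hK0
      _ = _ := by ring
  have h7 := le_of_mul_le_mul_left h6 hq0
  refine h7.trans (mul_le_mul_of_nonneg_left ?_ hK0)
  linarith

/-- light states are reached -/
theorem saturate {G : Ω → Prop} {α β : ℝ} {q T D K J L : ℕ} (hG : S.Gap G α β q)
    (hP : Par S.k q T D K J L) (hR : 0 < Fintype.card R) {M : ℕ} (hM : M + S.k ≤ D) (n : ℕ) :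
    ∀ {Y : Finset Pos} {p0 : Ω}, M ≤ n + (S.bad Y).card → 2 * Y.card ≤ M + (S.bad Y).card →
    0 < n0 G (S.cls Y (S.ct p0) p0) →
    n1 G (S.cls Y (S.ct p0) p0) * D ≤ K * (S.cls Y (S.ct p0) p0).card →
    ∃ (Y' : Finset Pos) (p' : Ω), 2 * Y'.card ≤ M + (S.bad Y').card ∧ S.ct p' = S.ct p0 ∧
      0 < n0 G (S.cls Y' (S.ct p0) p') ∧
      n1 G (S.cls Y' (S.ct p0) p') * D ≤ K * (S.cls Y' (S.ct p0) p').card ∧
      Light S K Y' p' := by
  induction n with
  | zero =>
    intro Y p0 hn hY h0 hsm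
    have hYM : Y.card ≤ M := by have := S.bad_card Y; omega
    by_cases hl : Light S K Y p0
    · exact ⟨Y, p0, hY, rfl, h0, hsm, hl⟩
    · exfalso
      have hb := S.bad_card Y
      obtain ⟨Y1, p1, hYY, hc1, hct1, hb1, h01, h11⟩ := heavy_step hR (by omega) hsm hl
      have hb2 := S.bad_card Y1
      have hKk : S.k ≤ K := by
        rw [hP.hK]
        exact Nat.le_mul_of_pos_right _ (by omega)
      omega
  | succ n ih =>
    intro Y p0 hn hY h0 hsm
    have hYM : Y.card ≤ M := by have := S.bad_card Y; omega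
    by_cases hl : Light S K Y p0
    · exact ⟨Y, p0, hY, rfl, h0, hsm, hl⟩
    · have hb := S.bad_card Y
      obtain ⟨Y1, p1, hYY, hc1, hct1, hb1, h01, h11⟩ := heavy_step hR (by omega) hsm hl
      rw [← hct1] at h01 h11
      have hq : (1 : ℝ) ≤ q := by exact_mod_cast hP.hq
      obtain ⟨Y2, p2, hYY2, hc2, hct2, h02, h12⟩ := refine_many hG hR h01 (by nlinarith) T
      have hbm := card_le_card (S.bad_mono Y1 Y2 hYY2)
      have hKe : K = S.k * T + S.k := by rw [hP.hK]; ring
      have hct : S.ct p2 = S.ct p0 := hct2.trans hct1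
      rw [← hct2] at h02 h12
      have hsm2 : n1 G (S.cls Y2 (S.ct p2) p2) * D ≤ K * (S.cls Y2 (S.ct p2) p2).card :=
        small_of_odds hP h12
      obtain ⟨Y3, p3, h31, h32, h33, h34, h35⟩ := ih (Y := Y2) (p0 := p2) (by omega) (by omega)
        h02 hsm2
      rw [hct] at h32 h33 h34
      exact ⟨Y3, p3, h31, h32, h33, h34, h35⟩

/-! ### adding a batch -/

/-- flipping a set of cube points -/
theorem flip_set (Y : Finset Pos) (p0 : Ω) (a B : Finset W) (h1 : Disjoint B (S.bad Y))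
    (h2 : Disjoint B a) : (S.cls Y a p0).card = (S.cls Y (a ∪ B) p0).card := by
  induction B using Finset.induction_on with
  | empty => rw [union_empty]
  | insert w B hw ih =>
    rw [disjoint_insert_left] at h1 h2
    rw [ih h1.2 h2.2]
    have h3 := S.flip Y p0 w (a ∪ B) h1.1 (by
      rw [mem_union, not_or]
      exact ⟨h2.1, hw⟩)
    rw [show a ∪ insert w B = insert w (a ∪ B) by rw [union_insert]]
    unfold cls Ag
    convert h3

omit [Fintype R] in
/-- sets with the same number of elements in each class have the same number of elements -/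
theorem card_eq_of_classes (r : Setoid Ω) (A B : Finset Ω)
    (h : ∀ p, (A.filter (fun p' => r p' p)).card = (B.filter (fun p' => r p' p)).card) :
    A.card = B.card := by
  rw [Finset.card_eq_sum_card_fiberwise (s := A) (t := (univ : Finset (Quotient r)))
      (f := fun p => (Quotient.mk r p)) (fun _ _ => mem_univ _),
    Finset.card_eq_sum_card_fiberwise (s := B) (t := (univ : Finset (Quotient r)))
      (f := fun p => (Quotient.mk r p)) (fun _ _ => mem_univ _)]
  refine sum_congr rfl fun c _ => ?_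
  obtain ⟨p, rfl⟩ := Quotient.exists_rep c
  have h1 : ∀ p' : Ω, (Quotient.mk r p' = Quotient.mk r p) ↔ r p' p := fun p' => Quotient.eq
  simp only [h1]
  exact h p

/-- a run meets the batch -/
def Hit (S : Setup Ω Pos W R) (Y : Finset Pos) (B : Finset W) (r : R) (p : Ω) : Prop :=
  ¬ Disjoint B (S.bad (Y ∪ S.Q r p))

theorem flip_trans (Y : Finset Pos) (p0 : Ω) (a B : Finset W)
    (h2 : Disjoint B a) (r : R) (P : Ω → Prop)
    (hPr : ∀ p p', S.Ag (Y ∪ S.Q r p) p p' → (P p' ↔ P p)) :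
    ((S.cls Y a p0).filter (fun p => P p ∧ ¬ Hit S Y B r p)).card =
      ((S.cls Y (a ∪ B) p0).filter (fun p => P p ∧ ¬ Hit S Y B r p)).card := by
  let sd : Setoid Ω := ⟨fun p' p => S.Ag (Y ∪ S.Q r p) p p', fun p => Ag.refl S _ _,
    fun {p' p} h => S.tr_symm h, fun {p p' p''} h h' => S.tr_trans h' h⟩
  refine card_eq_of_classes sd _ _ (fun p => ?_)
  have hsd : ∀ p', sd p' p ↔ S.Ag (Y ∪ S.Q r p) p p' := fun _ => Iff.rfl
  by_cases hc : S.Ag Y p0 p ∧ P p ∧ ¬ Hit S Y B r p
  · obtain ⟨hc1, hc2, hc3⟩ := hc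
    have key : ∀ b : Finset W, (((S.cls Y b p0).filter (fun p => P p ∧ ¬ Hit S Y B r p)).filter
        (fun p' => sd p' p)) = S.cls (Y ∪ S.Q r p) b p := by
      intro b
      ext p'
      rw [mem_filter, mem_filter, mem_cls, mem_cls, hsd]
      constructor
      · rintro ⟨⟨⟨h3, _⟩, _⟩, h4⟩
        exact ⟨h3, h4⟩
      · rintro ⟨h3, h4⟩
        refine ⟨⟨⟨h3, Ag.trans S hc1 (Ag.mono S h4 subset_union_left)⟩, (hPr p p' h4).2 hc2, ?_⟩,
          h4⟩
        rw [Hit, (S.det' h4).1]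
        exact hc3
    rw [key, key]
    exact flip_set _ _ _ _ (by rw [Hit, not_not] at hc3; exact hc3) h2
  · have key : ∀ b : Finset W, (((S.cls Y b p0).filter (fun p => P p ∧ ¬ Hit S Y B r p)).filter
        (fun p' => sd p' p)) = ∅ := by
      intro b
      rw [filter_eq_empty_iff]
      intro p' hp' h4
      rw [mem_filter, mem_cls] at hp'
      rw [hsd] at h4
      refine hc ⟨Ag.trans S hp'.1.2 (Ag.symm S (Ag.mono S h4 subset_union_left)),
        (hPr p p' h4).1 hp'.2.1, ?_⟩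
      have h5 := hp'.2.2
      rw [Hit, (S.det' h4).1] at h5
      exact h5
    rw [key, key]

theorem out_batch_le (Y : Finset Pos) (p0 : Ω) (a B : Finset W) (h1 : Disjoint B (S.bad Y))
    (h2 : Disjoint B a) (r : R) :
    ((S.cls Y (a ∪ B) p0).filter (fun p => S.out r p)).card ≤
      ((S.cls Y a p0).filter (fun p => S.out r p)).card +
      ((S.cls Y a p0).filter (fun p => Hit S Y B r p)).card := by
  have e1 := flip_trans (S := S) Y p0 a B h2 r (fun p => S.out r p) (fun p p' h => (S.det' h).2)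
  have e2 := flip_trans (S := S) Y p0 a B h2 r (fun _ => True) (fun p p' h => Iff.rfl)
  have e3 := flip_set (S := S) Y p0 a B h1 h2
  simp only [true_and] at e2
  have hs : ∀ (C : Finset Ω), (C.filter (fun p => ¬ Hit S Y B r p)).card +
      (C.filter (fun p => Hit S Y B r p)).card = C.card := by
    intro C
    rw [add_comm, ← card_filter_add_card_filter_not (s := C) (fun p => Hit S Y B r p)]
  have h4 := hs (S.cls Y a p0)
  have h5 := hs (S.cls Y (a ∪ B) p0)
  have h6 : ((S.cls Y (a ∪ B) p0).filter (fun p => S.out r p)).card ≤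
      ((S.cls Y (a ∪ B) p0).filter (fun p => S.out r p ∧ ¬ Hit S Y B r p)).card +
      ((S.cls Y (a ∪ B) p0).filter (fun p => Hit S Y B r p)).card := by
    refine (card_le_card ?_).trans (card_union_le _ _)
    intro p hp
    rw [mem_filter] at hp
    rw [mem_union, mem_filter, mem_filter]
    by_cases hh : Hit S Y B r p
    · exact Or.inr ⟨hp.1, hh⟩
    · exact Or.inl ⟨hp.1, hp.2, hh⟩
  have h7 : ((S.cls Y a p0).filter (fun p => S.out r p ∧ ¬ Hit S Y B r p)).card ≤
      ((S.cls Y a p0).filter (fun p => S.out r p)).card := by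
    refine card_le_card fun p hp => ?_
    rw [mem_filter] at hp ⊢
    exact ⟨hp.1, hp.2.1⟩
  omega

/-- one of many disjoint batches is rarely met -/
theorem exists_batch {K L : ℕ} {Y : Finset Pos} {p0 : Ω} (hl : Light S K Y p0)
    (hL : 0 < L) (B : ℕ → Finset W) (hd : ∀ i < L, ∀ j < L, i ≠ j → Disjoint (B i) (B j))
    (hb : ∀ i < L, Disjoint (B i) (S.bad Y)) :
    ∃ i < L, (∑ r, (((S.cls Y (S.ct p0) p0).filter (fun p => Hit S Y (B i) r p)).card : ℝ)) * L ≤
      4 * K * Fintype.card R * (S.cls Y (S.ct p0) p0).card := by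
  set C := S.cls Y (S.ct p0) p0 with hC
  by_contra hn
  push Not at hn
  have h1 : ∑ i ∈ range L, (∑ r, ((C.filter (fun p => Hit S Y (B i) r p)).card : ℝ)) ≤
      ∑ r, ∑ p ∈ C, ((new S Y r p).card : ℝ) := by
    rw [sum_comm]
    refine sum_le_sum fun r _ => ?_
    have h2 : ∀ i ∈ range L, ((C.filter (fun p => Hit S Y (B i) r p)).card : ℝ) =
        ∑ p ∈ C, (if Hit S Y (B i) r p then (1 : ℝ) else 0) := by
      intro i _
      rw [card_filter]
      push_cast
      rfl
    rw [sum_congr rfl h2, sum_comm]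
    refine sum_le_sum fun p _ => ?_
    have h3 : ∑ i ∈ range L, (if Hit S Y (B i) r p then (1 : ℝ) else 0) =
        (((range L).filter (fun i => Hit S Y (B i) r p)).card : ℝ) := by
      rw [card_filter]
      push_cast
      rfl
    rw [h3]
    have hex : ∀ i ∈ (range L).filter (fun i => Hit S Y (B i) r p),
        ∃ w, w ∈ B i ∧ w ∈ new S Y r p := by
      intro i hi
      rw [mem_filter, mem_range, Hit, not_disjoint_iff] at hi
      obtain ⟨hi, w, hw1, hw2⟩ := hi
      refine ⟨w, hw1, ?_⟩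
      rw [new, mem_sdiff]
      exact ⟨hw2, fun hw3 => (disjoint_left.1 (hb i hi) hw1 hw3)⟩
    have : ((range L).filter (fun i => Hit S Y (B i) r p)).card ≤ (new S Y r p).card := by
      rcases isEmpty_or_nonempty W with hW | hW
      · rw [show (range L).filter (fun i => Hit S Y (B i) r p) = ∅ from
          eq_empty_of_forall_notMem fun i hi => hW.elim (hex i hi).choose]
        simp
      choose! g hg1 hg2 using hex
      refine card_le_card_of_injOn g hg2 ?_
      intro i hi j hj hij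
      by_contra hne
      rw [mem_coe] at hi hj
      have hi' := (mem_filter.1 hi).1
      have hj' := (mem_filter.1 hj).1
      rw [mem_range] at hi' hj'
      have h5 := hd i hi' j hj' hne
      exact disjoint_left.1 h5 (hg1 i hi) (hij ▸ hg1 j hj)
    exact_mod_cast this
  have hL' : (0 : ℝ) < L := by exact_mod_cast hL
  have h4 : ∑ i ∈ range L, ((4 * K * Fintype.card R * C.card : ℝ) / L) <
      ∑ i ∈ range L, (∑ r, ((C.filter (fun p => Hit S Y (B i) r p)).card : ℝ)) := by
    refine sum_lt_sum_of_nonempty ⟨0, mem_range.2 hL⟩ fun i hi => ?_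
    rw [div_lt_iff₀ hL']
    exact hn i (mem_range.1 hi)
  rw [sum_const, card_range, nsmul_eq_mul, mul_div_cancel₀ _ hL'.ne'] at h4
  exact absurd (lt_of_lt_of_le h4 (h1.trans hl)) (lt_irrefl _)

/-- the arithmetic of a batch -/
theorem batch_arith {α β ρ N x y X a b s t q : ℝ} (hq : 0 < q) (hR' : 0 < ρ) (hN0 : 0 < N)
    (hn1C : 0 ≤ a) (hα : 0 ≤ α) (hαβ : α + 1 / q ≤ β) (hβ : β ≤ 1)
    (e1 : a + b = N) (e2 : x + y = N) (hhit : X * (4 * q) ≤ ρ * N) (hn1 : a * (4 * q) ≤ N)
    (hup : s ≤ a * ρ + b * (α * ρ)) (hlow : x * (β * ρ) + y * 0 ≤ t)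
    (hstep : t ≤ s + X) : N / (2 * q) ≤ y := by
  have h5 : x * β * ρ ≤ ρ * (α * N + a) + X := by
    have h0 : b = N - a := by linarith
    have h6 : a * ρ + b * (α * ρ) ≤ ρ * (α * N + a) := by
      rw [h0]
      have : 0 ≤ a * α * ρ := by positivity
      nlinarith
    linarith
  have h7 : X ≤ ρ * N / (4 * q) := by
    rw [le_div_iff₀ (by positivity)]
    exact hhit
  have h8 : a ≤ N / (4 * q) := by
    rw [le_div_iff₀ (by positivity)]
    exact hn1
  have h9 : x * β * ρ ≤ ρ * ((α + 1 / (2 * q)) * N) := by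
    have h10 : ρ * a ≤ ρ * (N / (4 * q)) := mul_le_mul_of_nonneg_left h8 hR'.le
    have h11 : ρ * ((α + 1 / (2 * q)) * N) = ρ * (α * N) + ρ * (N / (4 * q)) +
        ρ * N / (4 * q) := by
      field_simp
      ring
    rw [h11]
    linarith
  have h12 : x * β ≤ (α + 1 / (2 * q)) * N := by
    have h13 : ρ * (x * β) ≤ ρ * ((α + 1 / (2 * q)) * N) := by linarith
    exact le_of_mul_le_mul_left h13 hR'
  have h14 : α + 1 / (2 * q) ≤ β - 1 / (2 * q) := by
    have : 1 / (2 * q) + 1 / (2 * q) = 1 / q := by field_simp; norm_num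
    linarith
  have h15 : x * β ≤ (β - 1 / (2 * q)) * N := h12.trans (mul_le_mul_of_nonneg_right h14 hN0.le)
  have hβ0 : 0 < β := by
    have : (0 : ℝ) < 1 / q := by positivity
    linarith
  have h16 : (β - 1 / (2 * q)) * N ≤ β * ((1 - 1 / (2 * q)) * N) := by
    have h17 : (0 : ℝ) < 1 / (2 * q) := by positivity
    have h18 : 0 ≤ (1 - β) * (1 / (2 * q) * N) := by
      refine mul_nonneg (by linarith) (by positivity)
    nlinarith
  have h19 : x ≤ (1 - 1 / (2 * q)) * N := by
    have h20 : β * x ≤ β * ((1 - 1 / (2 * q)) * N) := by linarith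
    exact le_of_mul_le_mul_left h20 hβ0
  have h22 : (1 - 1 / (2 * q)) * N = N - N / (2 * q) := by ring
  rw [h22] at h19
  linarith

/-- adding a rarely met batch -/
theorem batch_step {G : Ω → Prop} {α β : ℝ} {q T D K J L : ℕ} (hG : S.Gap G α β q)
    (hP : Par S.k q T D K J L) (hR : 0 < Fintype.card R) {Y : Finset Pos} {p0 : Ω}
    (h0 : 0 < n0 G (S.cls Y (S.ct p0) p0))
    (hsm : n1 G (S.cls Y (S.ct p0) p0) * D ≤ K * (S.cls Y (S.ct p0) p0).card)
    (B : Finset W) (hb : Disjoint B (S.bad Y)) (ha : Disjoint B (S.ct p0))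
    (hh : (∑ r, (((S.cls Y (S.ct p0) p0).filter (fun p => Hit S Y B r p)).card : ℝ)) * L ≤
      4 * K * Fintype.card R * (S.cls Y (S.ct p0) p0).card) :
    ∃ p' : Ω, S.ct p' = S.ct p0 ∪ B ∧ 0 < n0 G (S.cls Y (S.ct p') p') ∧
      n1 G (S.cls Y (S.ct p') p') ≤ 2 * q * n0 G (S.cls Y (S.ct p') p') := by
  set C := S.cls Y (S.ct p0) p0 with hC
  set C2 := S.cls Y (S.ct p0 ∪ B) p0 with hC2
  have hcard : C.card = C2.card := flip_set Y p0 _ B hb ha
  have hCn : (0 : ℝ) < C.card := by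
    have h1 := n_add G C
    have h2 := n1_nonneg G C
    linarith
  have hC2n : 0 < C2.card := by rw [← hcard]; exact_mod_cast hCn
  obtain ⟨p', hp'⟩ := card_pos.1 hC2n
  have hp'2 := S.mem_cls.1 hp'
  have hcls : S.cls Y (S.ct p') p' = C2 := by
    ext x
    rw [mem_cls, hC2, mem_cls, hp'2.1]
    constructor
    · rintro ⟨h1, h2⟩
      exact ⟨h1, Ag.trans S hp'2.2 h2⟩
    · rintro ⟨h1, h2⟩
      exact ⟨h1, Ag.trans S (Ag.symm S hp'2.2) h2⟩
  refine ⟨p', hp'2.1, ?_⟩
  rw [hcls]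
  have hq : (0 : ℝ) < q := by exact_mod_cast hG.hq
  have hq1 : (1 : ℝ) ≤ q := by exact_mod_cast hG.hq
  have hK : 1 ≤ K := by
    rw [hP.hK]
    exact Nat.one_le_iff_ne_zero.2 (Nat.mul_ne_zero (by have := hP.hk; omega) (by omega))
  have hK' : (0 : ℝ) < K := by exact_mod_cast hK
  have hR' : (0 : ℝ) < Fintype.card R := by exact_mod_cast hR
  have hLe : (L : ℝ) = 16 * q * K := by exact_mod_cast hP.hL
  -- hits
  have hhit : (∑ r, ((C.filter (fun p => Hit S Y B r p)).card : ℝ)) * (4 * q) ≤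
      Fintype.card R * C.card := by
    rw [hLe] at hh
    have h1 : (4 * (K : ℝ)) * ((∑ r, ((C.filter (fun p => Hit S Y B r p)).card : ℝ)) * (4 * q)) ≤
        (4 * K) * (Fintype.card R * C.card) := by
      calc _ = (∑ r, ((C.filter (fun p => Hit S Y B r p)).card : ℝ)) * (16 * q * K) := by ring
        _ ≤ _ := hh
        _ = _ := by ring
    exact le_of_mul_le_mul_left h1 (by positivity)
  -- small n1
  have hn1 : n1 G C * (4 * q) ≤ C.card := by
    have hD : (4 * (q : ℝ)) * K ≤ D := by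
      have h1 : 4 * q * K ≤ D := by
        have h2 : 1 ≤ q := hP.hq
        have e1 := hP.hD
        have e2 := hP.hJ
        have e3 := hP.hL
        have h4 : 2 * K * (J + 1) = 2 * K * J + 2 * K := by ring
        have h5 : 1 * J ≤ 2 * K * J := Nat.mul_le_mul_right _ (by omega)
        have h6 : 16 * q * K = 4 * (4 * q * K) := by ring
        omega
      exact_mod_cast h1
    have h2 : (K : ℝ) * (n1 G C * (4 * q)) ≤ K * C.card := by
      calc (K : ℝ) * (n1 G C * (4 * q)) = n1 G C * (4 * q * K) := by ring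
        _ ≤ n1 G C * D := mul_le_mul_of_nonneg_left hD (n1_nonneg _ _)
        _ ≤ _ := hsm
    exact le_of_mul_le_mul_left h2 hK'
  -- acceptance sums
  have hsumacc : ∀ E : Finset Ω, ∑ r, ((E.filter (fun p => S.out r p)).card : ℝ) =
      ∑ p ∈ E, S.acc p := by
    intro E
    have h1 : ∀ r, ((E.filter (fun p => S.out r p)).card : ℝ) =
        ∑ p ∈ E, (if S.out r p then (1 : ℝ) else 0) := by
      intro r
      rw [card_filter]
      push_cast
      rfl
    rw [sum_congr rfl (fun r _ => h1 r), sum_comm]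
    refine sum_congr rfl fun p _ => ?_
    rw [acc, card_filter]
    push_cast
    rfl
  have hup : ∑ p ∈ C, S.acc p ≤ n1 G C * Fintype.card R + n0 G C * (α * Fintype.card R) := by
    rw [← sum_G]
    refine sum_le_sum fun p _ => ?_
    split_ifs with hg
    · rw [acc]
      have : (univ.filter (fun r => S.out r p)).card ≤ Fintype.card R := by
        rw [← card_univ]; exact card_filter_le _ _
      exact_mod_cast this
    · exact hG.lo p hg
  have hlow : n1 G C2 * (β * Fintype.card R) + n0 G C2 * 0 ≤ ∑ p ∈ C2, S.acc p := by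
    rw [← sum_G]
    refine sum_le_sum fun p _ => ?_
    split_ifs with hg
    · exact hG.hi p hg
    · rw [acc]; positivity
  have hstep : ∑ p ∈ C2, S.acc p ≤ ∑ p ∈ C, S.acc p +
      ∑ r, ((C.filter (fun p => Hit S Y B r p)).card : ℝ) := by
    rw [← hsumacc, ← hsumacc, ← sum_add_distrib]
    refine sum_le_sum fun r _ => ?_
    exact_mod_cast out_batch_le (S := S) Y p0 (S.ct p0) B hb ha r
  have e1 := n_add G C
  have e2 := n_add G C2
  have hcard' : (C.card : ℝ) = C2.card := by exact_mod_cast hcard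
  rw [hcard'] at hhit hn1 e1
  have h21 := batch_arith hq hR' (by exact_mod_cast hC2n) (n1_nonneg G C)
    hG.hα hG.hαβ hG.hβ e1 e2 hhit hn1 hup hlow hstep
  refine ⟨lt_of_lt_of_le (by positivity) h21, ?_⟩
  rw [div_le_iff₀ (by positivity)] at h21
  have := n0_nonneg G C2
  nlinarith

/-! ### the main lemma -/

omit [Fintype Ω] [Fintype R] in
theorem exists_batches (b L : ℕ) : ∀ (A : Finset W), L * b ≤ A.card →
    ∃ B : ℕ → Finset W, (∀ i < L, B i ⊆ A ∧ (B i).card = b) ∧
      ∀ i < L, ∀ j < L, i ≠ j → Disjoint (B i) (B j) := by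
  induction L with
  | zero => intro A _; exact ⟨fun _ => ∅, by simp, by simp⟩
  | succ L ih =>
    intro A hA
    rw [Nat.succ_mul] at hA
    obtain ⟨B0, hB0, hc0⟩ := exists_subset_card_eq (show b ≤ A.card by omega)
    obtain ⟨B, h1, h2⟩ := ih (A \ B0) (by rw [card_sdiff_of_subset hB0]; omega)
    refine ⟨fun i => if i = L then B0 else B i, ?_, ?_⟩
    · intro i hi
      simp only
      split_ifs with hiL
      · exact ⟨hB0, hc0⟩
      · have := h1 i (by omega)
        exact ⟨this.1.trans sdiff_subset, this.2⟩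
    · intro i hi j hj hij
      simp only
      have hd : ∀ l < L, Disjoint B0 (B l) := fun l hl =>
        disjoint_sdiff.mono_right (h1 l hl).1
      split_ifs with hiL hjL hjL
      · exact absurd (hiL.trans hjL.symm) hij
      · exact hd j (by omega)
      · exact (hd i (by omega)).symm
      · exact h2 i (by omega) j (by omega) hij

/-- A machine with a gap and few queries takes the value 0 at a content in which the block `W1`
is dense, if it does so at the majority of the contents in which this block is empty. -/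
theorem exists_dense {G : Ω → Prop} {α β : ℝ} {q T D K J L : ℕ} (hG : S.Gap G α β q)
    (hP : Par S.k q T D K J L) (hR : 0 < Fintype.card R) (a0 W1 : Finset W)
    (hdis : Disjoint W1 a0) (hW : 8 * D ≤ W1.card) (p0 : Ω) (hp0 : S.ct p0 = a0)
    (hmaj : n1 G (S.cls ∅ a0 p0) ≤ n0 G (S.cls ∅ a0 p0)) :
    ∃ p, ¬ G p ∧ ∃ B ⊆ W1, S.ct p = a0 ∪ B ∧ 3 * W1.card < 4 * B.card := by
  have hq1 : (1 : ℝ) ≤ q := by exact_mod_cast hP.hq
  have hKk : K = S.k * T + S.k := by rw [hP.hK]; ring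
  have hk := hP.hk
  have hK1 : 1 ≤ K := by omega
  have hL1 : 16 * K ≤ L := by
    rw [hP.hL]
    exact Nat.mul_le_mul_right _ (by have := hP.hq; omega)
  -- start
  have hne : 0 < n0 G (S.cls ∅ a0 p0) := by
    have h1 := n_add G (S.cls ∅ a0 p0)
    have h2 : p0 ∈ S.cls ∅ a0 p0 := S.mem_cls.2 ⟨hp0, Ag.refl S _ _⟩
    have h3 : 0 < (S.cls ∅ a0 p0).card := card_pos.2 ⟨p0, h2⟩
    have h4 : (0 : ℝ) < (S.cls ∅ a0 p0).card := by exact_mod_cast h3
    linarith
  set b := W1.card / (16 * L) with hb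
  have hb1 : 16 * L * b ≤ W1.card := Nat.mul_div_le _ _
  have hb2 : W1.card < 16 * L * (b + 1) := by
    rw [hb]
    exact Nat.lt_mul_div_succ _ (by omega)
  have hJL := hP.hJ
  have hDD := hP.hD
  have hLD : 26 * L < D := by
    rw [hDD, hJL]
    have : 2 * 1 * (13 * L + 1) ≤ 2 * K * (13 * L + 1) := Nat.mul_le_mul_right _ (by omega)
    omega
  have key : ∀ j ≤ J, ∃ (Y : Finset Pos) (p1 : Ω) (B : Finset W), B ⊆ W1 ∧ B.card = j * b ∧
      S.ct p1 = a0 ∪ B ∧ 2 * Y.card ≤ 2 * K * j + (S.bad Y).card ∧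
      0 < n0 G (S.cls Y (S.ct p1) p1) ∧
      n1 G (S.cls Y (S.ct p1) p1) ≤ 2 * q * n0 G (S.cls Y (S.ct p1) p1) := by
    intro j
    induction j with
    | zero =>
      intro _
      refine ⟨∅, p0, ∅, by simp, by simp, by simp [hp0], by simp, by rw [hp0]; exact hne, ?_⟩
      rw [hp0]
      nlinarith
    | succ j ih =>
      intro hj
      obtain ⟨Y, p1, B, hB, hBc, hct, hY, h0, h1⟩ := ih (by omega)
      obtain ⟨Y1, p2, hYY, hc1, hct2, h02, h12⟩ := refine_many hG hR h0 h1 T
      rw [← hct2] at h02 h12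
      have hsm := small_of_odds hP h12
      have hbm := card_le_card (S.bad_mono Y Y1 hYY)
      have hM : 2 * K * (j + 1) + S.k ≤ D := by
        rw [hDD]
        have : 2 * K * (j + 1) ≤ 2 * K * (J + 1) := Nat.mul_le_mul_left _ (by omega)
        omega
      have hM2 : 2 * Y1.card ≤ 2 * K * (j + 1) + (S.bad Y1).card := by
        have : 2 * K * (j + 1) = 2 * K * j + 2 * K := by ring
        omega
      obtain ⟨Y3, p3, h31, h32, h33, h34, h35⟩ := saturate hG hP hR hM (2 * K * (j + 1))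
        (by omega) hM2 h02 hsm
      rw [← h32] at h33 h34
      have hct3 : S.ct p3 = a0 ∪ B := by rw [h32, hct2, hct]
      have hY3 : Y3.card ≤ 2 * K * (j + 1) := by
        have := S.bad_card Y3
        omega
      -- the batches
      have hav : L * b ≤ (W1 \ (B ∪ S.bad Y3)).card := by
        have h5 : W1.card ≤ (W1 \ (B ∪ S.bad Y3)).card + (B ∪ S.bad Y3).card := by
          have := le_card_sdiff (B ∪ S.bad Y3) W1
          omega
        have h6 := card_union_le B (S.bad Y3)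
        have h7 := S.bad_card Y3
        have h8 : j * b ≤ 13 * L * b := Nat.mul_le_mul_right _ (by omega)
        have h12 : 16 * L * b = 16 * (L * b) := by ring
        have h13 : 13 * L * b = 13 * (L * b) := by ring
        omega
      obtain ⟨Bs, hBs1, hBs2⟩ := exists_batches b L _ hav
      have hBbad : ∀ i < L, Disjoint (Bs i) (S.bad Y3) := fun i hi => by
        refine disjoint_left.2 fun w hw hw2 => ?_
        have := (hBs1 i hi).1 hw
        rw [mem_sdiff, mem_union, not_or] at this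
        exact this.2.2 hw2
      obtain ⟨i, hi, hhit⟩ := exists_batch h35 (by omega) Bs hBs2 hBbad
      have hBsW : Bs i ⊆ W1 := fun w hw => by
        have := (hBs1 i hi).1 hw
        rw [mem_sdiff] at this
        exact this.1
      have hdB : Disjoint (Bs i) B := by
        refine disjoint_left.2 fun w hw hw2 => ?_
        have := (hBs1 i hi).1 hw
        rw [mem_sdiff, mem_union, not_or] at this
        exact this.2.1 hw2
      have hdct : Disjoint (Bs i) (S.ct p3) := by
        rw [hct3, disjoint_union_right]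
        exact ⟨hdis.mono_left hBsW, hdB⟩
      obtain ⟨p4, h41, h42, h43⟩ := batch_step hG hP hR h33 h34 (Bs i) (hBbad i hi) hdct hhit
      refine ⟨Y3, p4, B ∪ Bs i, union_subset hB hBsW, ?_, ?_, h31, h42, h43⟩
      · rw [card_union_of_disjoint hdB.symm, hBc, (hBs1 i hi).2]
        ring
      · rw [h41, hct3, union_assoc]
  obtain ⟨Y, p1, B, hB, hBc, hct, _, h0, _⟩ := key J le_rfl
  have h1 : 0 < ((S.cls Y (S.ct p1) p1).filter (fun p => ¬ G p)).card := by
    rw [n0] at h0
    exact_mod_cast h0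
  obtain ⟨p, hp⟩ := card_pos.1 h1
  rw [mem_filter, mem_cls] at hp
  refine ⟨p, hp.2, B, hB, hp.1.1.trans hct, ?_⟩
  rw [hBc, hJL]
  have h2 : 16 * L * (b + 1) = 16 * (L * b) + 16 * L := by ring
  have h3 : 4 * (13 * L * b) = 52 * (L * b) := by ring
  rw [h3]
  omega

/-! ### exchanging the outcomes -/

/-- the setting with exchanged outcomes -/
def neg (S : Setup Ω Pos W R) : Setup Ω Pos W R :=
  { S with
    out := fun r p => ¬ S.out r p
    det := fun r p p' h => ⟨(S.det r p p' h).1, not_congr (S.det r p p' h).2⟩ }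

theorem neg_acc (S : Setup Ω Pos W R) (p : Ω) :
    S.neg.acc p = Fintype.card R - S.acc p := by
  have h1 : (univ.filter (fun r => S.out r p)).card + (univ.filter (fun r => ¬ S.out r p)).card =
      (univ : Finset R).card := card_filter_add_card_filter_not _
  rw [card_univ] at h1
  have h2 : S.neg.acc p = ((univ.filter (fun r => ¬ S.out r p)).card : ℝ) := by
    unfold acc neg
    congr
  rw [h2, acc, ← h1]
  push_cast
  ring

theorem Gap.neg {G : Ω → Prop} {α β : ℝ} {q : ℕ} (hG : S.Gap G α β q) :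
    S.neg.Gap (fun p => ¬ G p) (1 - β) (1 - α) q := by
  have h1 := hG.hαβ
  refine ⟨hG.hq, by linarith [hG.hβ], by linarith, by linarith [hG.hα], fun p hp => ?_,
    fun p hp => ?_⟩
  · rw [not_not] at hp
    have := hG.hi p hp
    rw [neg_acc]
    linarith
  · have := hG.lo p hp
    rw [neg_acc]
    linarith

omit [Fintype Ω] in
theorem n1_neg (G : Ω → Prop) (C : Finset Ω) : n1 (fun p => ¬ G p) C = n0 G C := by
  unfold n1 n0
  congr

omit [Fintype Ω] in
theorem n0_neg (G : Ω → Prop) (C : Finset Ω) : n0 (fun p => ¬ G p) C = n1 G C := by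
  unfold n1 n0
  congr 2
  ext p
  simp

/-! ### the parameters -/

theorem exists_const (q : ℕ) : ∃ c : ℕ, 838 * q ^ 2 * (2 * q + q * c + 1) ≤ 2 ^ c := by
  have h := tendsto_pow_const_div_const_pow_of_one_lt 1 (r := (2 : ℝ)) (by norm_num)
  have h1 : ∀ᶠ j : ℕ in Filter.atTop,
      ((j : ℝ) ^ 1 / 2 ^ j) < 1 / (838 * q ^ 2 * (3 * q + 1) + 1) :=
    h.eventually (gt_mem_nhds (by positivity))
  obtain ⟨c, hc1, hc2⟩ := (h1.and (Filter.eventually_ge_atTop 2)).exists
  refine ⟨c, ?_⟩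
  rw [pow_one, div_lt_div_iff₀ (by positivity) (by positivity), one_mul] at hc1
  have h2 : c * (838 * q ^ 2 * (3 * q + 1) + 1) < 2 ^ c := by exact_mod_cast hc1
  have h3 : 2 * q + q * c + 1 ≤ c * (3 * q + 1) := by nlinarith
  calc 838 * q ^ 2 * (2 * q + q * c + 1) ≤ 838 * q ^ 2 * (c * (3 * q + 1)) :=
        Nat.mul_le_mul_left _ h3
    _ ≤ c * (838 * q ^ 2 * (3 * q + 1) + 1) := by ring_nf; omega
    _ ≤ 2 ^ c := h2.le

theorem exists_par {k q c : ℕ} (hk : 1 ≤ k) (hq : 1 ≤ q)
    (hc : 838 * q ^ 2 * (2 * q + q * c + 1) ≤ 2 ^ c) {T K : ℕ} (hT : T = q * (2 * k + c))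
    (hK : K = k * (T + 1)) :
    Par k q T (2 * K * (13 * (16 * q * K) + 1) + k) K (13 * (16 * q * K)) (16 * q * K) := by
  refine ⟨hk, hq, hK, rfl, rfl, rfl, ?_⟩
  have hkK : k ≤ K := by rw [hK]; exact Nat.le_mul_of_pos_right _ (by omega)
  have hD : 2 * K * (13 * (16 * q * K) + 1) + k ≤ 419 * q * (K * K) := by
    have h1 : K ≤ q * (K * K) := by
      calc K = 1 * (1 * K) := by ring
        _ ≤ q * (K * K) := Nat.mul_le_mul hq (Nat.mul_le_mul (by omega) le_rfl)
    have h2 : 2 * K * (13 * (16 * q * K) + 1) = 416 * (q * (K * K)) + 2 * K := by ring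
    have h3 : 419 * q * (K * K) = 419 * (q * (K * K)) := by ring
    omega
  have hK2 : 838 * q ^ 2 * K ≤ 2 ^ (2 * k + c) := by
    have h1 : K ≤ k * k * (2 * q + q * c + 1) := by
      have h2 : T + 1 ≤ k * (2 * q + q * c + 1) := by
        rw [hT]
        have h4 : q * c ≤ k * (q * c) := Nat.le_mul_of_pos_left _ (by omega)
        calc q * (2 * k + c) + 1 = 2 * (q * k) + q * c + 1 := by ring
          _ ≤ 2 * (q * k) + k * (q * c) + k := by omega
          _ = k * (2 * q + q * c + 1) := by ring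
      rw [hK, mul_assoc]
      exact Nat.mul_le_mul_left _ h2
    have h3 : k ≤ 2 ^ k := Nat.lt_two_pow_self.le
    calc 838 * q ^ 2 * K ≤ 838 * q ^ 2 * (k * k * (2 * q + q * c + 1)) := Nat.mul_le_mul_left _ h1
      _ = (k * k) * (838 * q ^ 2 * (2 * q + q * c + 1)) := by ring
      _ ≤ (2 ^ k * 2 ^ k) * 2 ^ c := Nat.mul_le_mul (Nat.mul_le_mul h3 h3) hc
      _ = 2 ^ (2 * k + c) := by rw [← pow_add, ← pow_add]; congr 1; omega
  have hpow : (2 : ℝ) ^ (2 * k + c) ≤ (1 + 1 / (q : ℝ)) ^ T := by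
    have hq0 : (0 : ℝ) < q := by exact_mod_cast hq
    have h1 : (2 : ℝ) ≤ (1 + 1 / (q : ℝ)) ^ q := by
      have h2 := one_add_mul_le_pow (a := 1 / (q : ℝ)) (by
        have : (0 : ℝ) < 1 / q := by positivity
        linarith) q
      have h3 : (1 : ℝ) + q * (1 / q) = 2 := by field_simp; norm_num
      linarith
    rw [hT, pow_mul]
    exact pow_le_pow_left₀ (by norm_num) h1 _
  have h5 : 2 * q * (2 * K * (13 * (16 * q * K) + 1) + k) ≤ K * 2 ^ (2 * k + c) := by
    calc 2 * q * (2 * K * (13 * (16 * q * K) + 1) + k) ≤ 2 * q * (419 * q * (K * K)) :=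
          Nat.mul_le_mul_left _ hD
      _ = K * (838 * q ^ 2 * K) := by ring
      _ ≤ K * 2 ^ (2 * k + c) := Nat.mul_le_mul_left _ hK2
  calc 2 * (q : ℝ) * ((2 * K * (13 * (16 * q * K) + 1) + k : ℕ) : ℝ)
      = ((2 * q * (2 * K * (13 * (16 * q * K) + 1) + k) : ℕ) : ℝ) := by push_cast; ring
    _ ≤ ((K * 2 ^ (2 * k + c) : ℕ) : ℝ) := by exact_mod_cast h5
    _ = K * (2 : ℝ) ^ (2 * k + c) := by push_cast; ring
    _ ≤ K * (1 + 1 / (q : ℝ)) ^ T := mul_le_mul_of_nonneg_left hpow (by positivity)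

end Setup

end Pool.Agent.Helper99.Alg
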