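import Mathlib

set_option autoImplicit false

/-!
# Low-degree extensions of Boolean functions
-/

namespace Pool.Agent.Helper99.Alg

open Finset MvPolynomial Classical

variable {K : Type} [Field K] {m : ℕ}

/-- the point of `K ^ m` with the coordinates `0` and `1` given by `w` -/
def bpt (w : Fin m → Bool) : Fin m → K := fun j => if w j then 1 else 0

/-- the Lagrange polynomial of a cube point -/
noncomputable def delta (w : Fin m → Bool) : MvPolynomial (Fin m) K :=
  ∏ j, (if w j then X j else 1 - X j)

theorem eval_delta (w w' : Fin m → Bool) :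
    eval (bpt w') (delta w : MvPolynomial (Fin m) K) = if w' = w then 1 else 0 := by
  rw [delta, map_prod]
  split_ifs with h
  · subst h
    refine prod_eq_one fun j _ => ?_
    by_cases hj : w' j <;> simp [hj, bpt]
  · obtain ⟨j, hj⟩ : ∃ j, w' j ≠ w j := by
      by_contra hn
      push Not at hn
      exact h (funext hn)
    refine prod_eq_zero (mem_univ j) ?_
    by_cases h1 : w j
    · have h2 : w' j = false := by
        cases h3 : w' j
        · rfl
        · rw [h3, h1] at hj; exact absurd rfl hj
      simp [h1, bpt, h2]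
    · have h1' : w j = false := by simpa using h1
      have h2 : w' j = true := by
        cases h3 : w' j
        · rw [h3, h1'] at hj; exact absurd rfl hj
        · rfl
      simp [h1', bpt, h2]

theorem degreeOf_delta (w : Fin m → Bool) (i : Fin m) :
    degreeOf i (delta w : MvPolynomial (Fin m) K) ≤ 1 := by
  rw [delta]
  refine (degreeOf_prod_le i univ _).trans ?_
  have h : ∀ j ∈ (univ : Finset (Fin m)), degreeOf i
      ((if w j then X j else 1 - X j : MvPolynomial (Fin m) K)) ≤ if i = j then 1 else 0 := by
    intro j _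
    split_ifs with h1 h2 h2
    · rw [degreeOf_X, if_pos h2]
    · rw [degreeOf_X, if_neg h2]
    · refine (degreeOf_sub_le _ _ _).trans ?_
      rw [degreeOf_X, if_pos h2, degreeOf_one]
      simp
    · refine (degreeOf_sub_le _ _ _).trans ?_
      rw [degreeOf_X, if_neg h2, degreeOf_one]
      simp
  refine (sum_le_sum h).trans ?_
  simp

/-- the multilinear extension -/
noncomputable def mle (a : (Fin m → Bool) → Bool) : MvPolynomial (Fin m) K :=
  ∑ w, if a w then delta w else 0

theorem eval_mle (a : (Fin m → Bool) → Bool) (w : Fin m → Bool) :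
    eval (bpt w) (mle a : MvPolynomial (Fin m) K) = if a w then 1 else 0 := by
  rw [mle, map_sum, sum_eq_single w]
  · split_ifs
    · rw [eval_delta, if_pos rfl]
    · simp
  · intro w' _ h
    split_ifs
    · rw [eval_delta, if_neg h.symm]
    · simp
  · intro h; exact absurd (mem_univ w) h

theorem degreeOf_mle (a : (Fin m → Bool) → Bool) (i : Fin m) :
    degreeOf i (mle a : MvPolynomial (Fin m) K) ≤ 1 := by
  rw [mle]
  refine (degreeOf_sum_le i univ _).trans ?_
  refine Finset.sup_le fun w _ => ?_
  split_ifs
  · exact degreeOf_delta w i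
  · simp

/-- the cube points determined by values at `Y` of multilinear polynomials -/
noncomputable def badF (Y : Finset (Fin m → K)) : Finset (Fin m → Bool) :=
  univ.filter (fun w => ∀ P : MvPolynomial (Fin m) K, (∀ i, degreeOf i P ≤ 1) →
    (∀ y ∈ Y, eval y P = 0) → eval (bpt w) P = 0)

theorem badF_mono {Y Y' : Finset (Fin m → K)} (h : Y ⊆ Y') : badF Y ⊆ badF Y' := by
  intro w hw
  rw [badF, mem_filter] at hw ⊢
  exact ⟨mem_univ _, fun P h1 h2 => hw.2 P h1 (fun y hy => h2 y (h hy))⟩

theorem badF_card (Y : Finset (Fin m → K)) : (badF Y).card ≤ Y.card := by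
  by_contra hn
  push Not at hn
  let f : (badF Y → K) →ₗ[K] (Y → K) :=
    { toFun := fun c y => ∑ w : badF Y, c w * eval y.1 (delta w.1)
      map_add' := fun c d => by
        funext y
        simp only [Pi.add_apply, add_mul, sum_add_distrib]
      map_smul' := fun t c => by
        funext y
        simp only [Pi.smul_apply, smul_eq_mul, RingHom.id_apply, mul_sum, mul_assoc] }
  have hker : LinearMap.ker f ≠ ⊥ := by
    apply LinearMap.ker_ne_bot_of_finrank_lt
    rw [Module.finrank_fintype_fun_eq_card, Module.finrank_fintype_fun_eq_card,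
      Fintype.card_coe, Fintype.card_coe]
    exact hn
  obtain ⟨c, hc, hc0⟩ := Submodule.exists_mem_ne_zero_of_ne_bot hker
  rw [LinearMap.mem_ker] at hc
  apply hc0
  set P : MvPolynomial (Fin m) K := ∑ w : badF Y, C (c w) * delta w.1 with hP
  have hev : ∀ y : Fin m → K, eval y P = ∑ w : badF Y, c w * eval y (delta w.1) := by
    intro y
    rw [hP, map_sum]
    refine sum_congr rfl fun w _ => ?_
    rw [map_mul, eval_C]
  have hdeg : ∀ i, degreeOf i P ≤ 1 := by
    intro i
    rw [hP]
    refine (degreeOf_sum_le i univ _).trans (Finset.sup_le fun w _ => ?_)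
    exact (degreeOf_C_mul_le _ _ _).trans (degreeOf_delta _ _)
  have hY : ∀ y ∈ Y, eval y P = 0 := by
    intro y hy
    rw [hev]
    exact congrFun hc ⟨y, hy⟩
  funext w
  have h1 := (mem_filter.1 w.2).2 P hdeg hY
  rw [hev, sum_eq_single w] at h1
  · rw [eval_delta, if_pos rfl, mul_one] at h1
    exact h1
  · intro w' _ hne
    rw [eval_delta, if_neg (fun h => hne (Subtype.ext h.symm)), mul_zero]
  · intro h; exact absurd (mem_univ w) h

/-- a polynomial that vanishes on `Y` and flips only the cube point `w` -/
theorem exists_flip {Y : Finset (Fin m → K)} {w : Fin m → Bool} (hw : w ∉ badF Y) :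
    ∃ P : MvPolynomial (Fin m) K, (∀ i, degreeOf i P ≤ 2) ∧ (∀ y ∈ Y, eval y P = 0) ∧
      ∀ w', eval (bpt w') P = if w' = w then 1 else 0 := by
  rw [badF, mem_filter] at hw
  push Not at hw
  obtain ⟨P, h1, h2, h3⟩ := hw (mem_univ w)
  refine ⟨C (eval (bpt w) P)⁻¹ * (delta w * P), fun i => ?_, fun y hy => ?_, fun w' => ?_⟩
  · refine (degreeOf_C_mul_le _ _ _).trans ((degreeOf_mul_le _ _ _).trans ?_)
    have := degreeOf_delta (K := K) w i
    have := h1 i
    omega
  · rw [map_mul, map_mul, h2 y hy, mul_zero, mul_zero]
  · rw [map_mul, map_mul, eval_delta, eval_C]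
    split_ifs with h
    · subst h
      rw [one_mul, inv_mul_cancel₀ h3]
    · rw [zero_mul, mul_zero]

end Pool.Agent.Helper99.Alg
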