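import Pool.Agent.Helper56.PT.Lim
import Pool.Agent.Helper99.Alg.Comb
import Pool.Agent.Helper99.Alg.Poly

set_option autoImplicit false
set_option linter.unusedSectionVars false

/-!
# Oracles with low-degree extensions
-/

namespace Pool.Agent.Helper99.Alg

open Finset MvPolynomial Classical

/-- A query to a family of polynomials over the fields `K i`: number `m` of variables, field `i`,
point `y`, and a Boolean function `b` of the value (for instance one of its bits). -/
structure Query (ι : Type) (K : ι → Type) where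
  m : ℕ
  i : ι
  y : Fin m → K i
  b : K i → Bool

variable {ι : Type} {K : ι → Type} [∀ i, Field (K i)]

/-- The oracle that answers queries to `A` (strings that begin with `0`) and to the family `E` of
polynomials (strings that begin with `1`). -/
noncomputable def Ext (dec : List Bool → Query ι K) (A : List Bool → Bool)
    (E : ∀ (m : ℕ) (i : ι), MvPolynomial (Fin m) (K i)) : List Bool → Bool
  | [] => false
  | false :: w => A w
  | true :: s => (dec s).b (eval (dec s).y (E (dec s).m (dec s).i))

/-- `E` extends `A`: every `E m i` is a polynomial over `K i` of degree at most `c` in each of its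
`m` variables that agrees with `A` on the Boolean cube. -/
def IsExt (c : ℕ) (A : List Bool → Bool) (E : ∀ (m : ℕ) (i : ι), MvPolynomial (Fin m) (K i)) :
    Prop :=
  ∀ (m : ℕ) (i : ι), (∀ j, degreeOf j (E m i) ≤ c) ∧
    ∀ w : Fin m → Bool, eval (fun j => if w j then (1 : K i) else 0) (E m i) =
      if A (List.ofFn w) then 1 else 0

/-- agreement below a length -/
def Low (L : ℕ) (A A' : List Bool → Bool)
    (E E' : ∀ (m : ℕ) (i : ι), MvPolynomial (Fin m) (K i)) : Prop :=
  (∀ w : List Bool, w.length < L → A' w = A w) ∧ ∀ m < L, ∀ i, E' m i = E m i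

theorem Low.ext {L : ℕ} {A A' : List Bool → Bool}
    {E E' : ∀ (m : ℕ) (i : ι), MvPolynomial (Fin m) (K i)} (h : Low L A A' E E')
    {dec : List Bool → Query ι K} (hdec : ∀ s, (dec s).m ≤ s.length) {s : List Bool}
    (hs : s.length ≤ L) : Ext dec A' E' s = Ext dec A E s := by
  match s, hs with
  | [], _ => rfl
  | false :: w, hs =>
    show A' w = A w
    exact h.1 w (by simpa using hs)
  | true :: s, hs =>
    show (dec s).b _ = (dec s).b _
    rw [h.2 _ (lt_of_le_of_lt (hdec s) (by simpa using hs))]

/-! ### contents of a block -/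

variable {W : Type} [Fintype W]

/-- the oracle with the content `c` of the block `sU` -/
noncomputable def modA (A0 : List Bool → Bool) (sU : W → List Bool) (c : W → Bool)
    (v : List Bool) : Bool :=
  if h : ∃ u : W, sU u = v then c h.choose else A0 v

theorem modA_blk {A0 : List Bool → Bool} {sU : W → List Bool} (hU : Function.Injective sU)
    (c : W → Bool) (u : W) : modA A0 sU c (sU u) = c u := by
  have h : ∃ u' : W, sU u' = sU u := ⟨u, rfl⟩
  rw [modA, dif_pos h, hU h.choose_spec]

theorem modA_not {A0 : List Bool → Bool} {sU : W → List Bool} (c : W → Bool) {v : List Bool}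
    (h : ¬ ∃ u : W, sU u = v) : modA A0 sU c v = A0 v := by
  rw [modA, dif_neg h]

/-- contents: values on the block and polynomial functions over finitely many fields -/
def Cont (A0 : List Bool → Bool) (m : ℕ) (sU : W → List Bool) (I : Finset ι) : Type :=
  {p : (W → Bool) × (∀ i : I, (Fin m → K i.1) → K i.1) //
    ∀ i : I, ∃ P : MvPolynomial (Fin m) (K i.1), (∀ j, degreeOf j P ≤ 2) ∧
      (∀ y, eval y P = p.2 i y) ∧
      ∀ w, eval (bpt w) P = if modA A0 sU p.1 (List.ofFn w) then 1 else 0}

noncomputable instance [∀ i, Finite (K i)] (A0 : List Bool → Bool) (m : ℕ) (sU : W → List Bool)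
    (I : Finset ι) : Fintype (Cont (K := K) A0 m sU I) := by
  unfold Cont
  haveI : Finite ((W → Bool) × (∀ i : I, (Fin m → K i.1) → K i.1)) := inferInstance
  exact Fintype.ofFinite _

variable {A0 : List Bool → Bool} {m : ℕ} {sU : W → List Bool} {I : Finset ι}

/-- the polynomials of a content -/
noncomputable def polyOf (p : Cont (K := K) A0 m sU I) (i : ι) : MvPolynomial (Fin m) (K i) :=
  if h : i ∈ I then (p.2 ⟨i, h⟩).choose else mle (fun w => modA A0 sU p.1.1 (List.ofFn w))

theorem polyOf_deg (p : Cont (K := K) A0 m sU I) (i : ι) (j : Fin m) :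
    degreeOf j (polyOf p i) ≤ 2 := by
  rw [polyOf]
  split_ifs with h
  · exact (p.2 ⟨i, h⟩).choose_spec.1 j
  · exact (degreeOf_mle _ _).trans (by norm_num)

theorem polyOf_cube (p : Cont (K := K) A0 m sU I) (i : ι) (w : Fin m → Bool) :
    eval (bpt w) (polyOf p i) = if modA A0 sU p.1.1 (List.ofFn w) then 1 else 0 := by
  rw [polyOf]
  split_ifs with h h1 h1
  · rw [(p.2 ⟨i, h⟩).choose_spec.2.2 w, if_pos h1]
  · rw [(p.2 ⟨i, h⟩).choose_spec.2.2 w, if_neg h1]
  · rw [eval_mle, if_pos h1]
  · rw [eval_mle, if_neg h1]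

theorem polyOf_eval (p : Cont (K := K) A0 m sU I) {i : ι} (hi : i ∈ I) (y : Fin m → K i) :
    eval y (polyOf p i) = p.1.2 ⟨i, hi⟩ y := by
  rw [polyOf, dif_pos hi]
  exact (p.2 ⟨i, hi⟩).choose_spec.2.1 y

/-- the oracle of a content -/
noncomputable def orc (dec : List Bool → Query ι K)
    (E : ∀ (m : ℕ) (i : ι), MvPolynomial (Fin m) (K i)) (p : Cont (K := K) A0 m sU I) :
    List Bool → Bool :=
  Ext dec (modA A0 sU p.1.1) (Function.update E m (polyOf p))

/-- the points of the field `i` queried by `Y` -/
noncomputable def slice [∀ i, Finite (K i)] (dec : List Bool → Query ι K) (m : ℕ)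
    (Y : Finset (List Bool)) (i : ι) : Finset (Fin m → K i) :=
  (Set.toFinite {y : Fin m → K i | ∃ (s : List Bool) (b : K i → Bool),
    true :: s ∈ Y ∧ dec s = ⟨m, i, y, b⟩}).toFinset

theorem mem_slice [∀ i, Finite (K i)] {dec : List Bool → Query ι K} {m : ℕ}
    {Y : Finset (List Bool)} {i : ι} {y : Fin m → K i} :
    y ∈ slice dec m Y i ↔ ∃ (s : List Bool) (b : K i → Bool),
      true :: s ∈ Y ∧ dec s = ⟨m, i, y, b⟩ := by
  rw [slice, Set.Finite.mem_toFinset, Set.mem_ofPred_eq]

/-- the block points determined by queries -/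
noncomputable def badU [∀ i, Finite (K i)] (dec : List Bool → Query ι K) (sU : W → List Bool)
    (I : Finset ι) (wU : W → (Fin m → Bool)) (Y : Finset (List Bool)) : Finset W :=
  univ.filter (fun u => false :: sU u ∈ Y ∨ ∃ i ∈ I, wU u ∈ badF (slice dec m Y i))

theorem badU_mono [∀ i, Finite (K i)] {dec : List Bool → Query ι K} {wU : W → (Fin m → Bool)}
    {Y Y' : Finset (List Bool)} (h : Y ⊆ Y') : badU dec sU I wU Y ⊆ badU dec sU I wU Y' := by
  intro u hu
  rw [badU, mem_filter] at hu ⊢
  refine ⟨mem_univ _, ?_⟩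
  rcases hu.2 with hu | ⟨i, hi, hu⟩
  · exact Or.inl (h hu)
  · refine Or.inr ⟨i, hi, badF_mono (fun y hy => ?_) hu⟩
    rw [mem_slice] at hy ⊢
    obtain ⟨s, b, h1, h2⟩ := hy
    exact ⟨s, b, h h1, h2⟩

theorem badU_card [∀ i, Finite (K i)] {dec : List Bool → Query ι K} {wU : W → (Fin m → Bool)}
    (hU : Function.Injective sU) (hw : Function.Injective wU) (Y : Finset (List Bool)) :
    (badU dec sU I wU Y).card ≤ Y.card := by
  set Y0 := Y.filter (fun s => ∃ v, s = false :: v) with hY0
  set Y1 := Y.filter (fun s => ¬ ∃ v, s = false :: v) with hY1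
  have h0 : (univ.filter (fun u : W => false :: sU u ∈ Y)).card ≤ Y0.card := by
    refine card_le_card_of_injOn (fun u => false :: sU u) (fun u hu => ?_) (fun u _ u' _ h => ?_)
    · rw [mem_coe, mem_filter] at hu
      rw [mem_coe, hY0, mem_filter]
      exact ⟨hu.2, _, rfl⟩
    · simp only [List.cons.injEq, true_and] at h
      exact hU h
  have h1 : (I.biUnion (fun i => univ.filter (fun u : W => wU u ∈ badF (slice dec m Y i)))).card ≤
      Y1.card := by
    refine card_biUnion_le.trans ?_
    have h2 : ∀ i ∈ I, (univ.filter (fun u : W => wU u ∈ badF (slice dec m Y i))).card ≤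
        (slice dec m Y i).card := by
      intro i _
      refine le_trans ?_ (badF_card _)
      refine card_le_card_of_injOn wU (fun u hu => ?_) (fun u _ u' _ h => hw h)
      rw [mem_coe, mem_filter] at hu
      exact hu.2
    refine (sum_le_sum h2).trans ?_
    rw [← card_sigma]
    have hex : ∀ z ∈ I.sigma (fun i => slice dec m Y i), ∃ s : List Bool, true :: s ∈ Y ∧
        ∃ b, dec s = ⟨m, z.1, z.2, b⟩ := by
      intro z hz
      rw [mem_sigma, mem_slice] at hz
      obtain ⟨_, s, b, h3, h4⟩ := hz
      exact ⟨s, h3, b, h4⟩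
    choose! g hg1 hg2 using hex
    refine card_le_card_of_injOn (fun z => true :: g z) (fun z hz => ?_) (fun z hz z' hz' h => ?_)
    · rw [mem_coe, hY1, mem_filter]
      refine ⟨hg1 z hz, ?_⟩
      rintro ⟨v, hv⟩
      simp at hv
    · simp only [List.cons.injEq, true_and] at h
      obtain ⟨b, hb⟩ := hg2 z hz
      obtain ⟨b', hb'⟩ := hg2 z' hz'
      rw [h, hb'] at hb
      rcases z with ⟨i, y⟩
      rcases z' with ⟨i', y'⟩
      simp only [Query.mk.injEq, true_and] at hb
      obtain ⟨rfl, h5, _⟩ := hb
      rw [heq_eq_eq] at h5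
      rw [h5]
  have h2 : badU dec sU I wU Y ⊆ (univ.filter (fun u : W => false :: sU u ∈ Y)) ∪
      (I.biUnion (fun i => univ.filter (fun u : W => wU u ∈ badF (slice dec m Y i)))) := by
    intro u hu
    rw [badU, mem_filter] at hu
    rw [mem_union, mem_filter, mem_biUnion]
    rcases hu.2 with hu | ⟨i, hi, hu⟩
    · exact Or.inl ⟨mem_univ _, hu⟩
    · exact Or.inr ⟨i, hi, mem_filter.2 ⟨mem_univ _, hu⟩⟩
  have h3 := card_le_card h2
  have h4 := card_union_le (univ.filter (fun u : W => false :: sU u ∈ Y))
    (I.biUnion (fun i => univ.filter (fun u : W => wU u ∈ badF (slice dec m Y i))))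
  have h5 : Y0.card + Y1.card = Y.card := card_filter_add_card_filter_not _
  omega

/-! ### flipping -/

/-- the Boolean content -/
def ctC (p : Cont (K := K) A0 m sU I) : Finset W := univ.filter (fun u => p.1.1 u = true)

theorem mem_ctC {p : Cont (K := K) A0 m sU I} {x : W} : x ∈ ctC p ↔ p.1.1 x = true := by
  rw [ctC, mem_filter]
  simp

/-- agreement of two contents at a short query -/
def agC (dec : List Bool → Query ι K) (E : ∀ (m : ℕ) (i : ι), MvPolynomial (Fin m) (K i)) (N : ℕ)
    (s : List Bool) (p p' : Cont (K := K) A0 m sU I) : Prop :=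
  s.length ≤ N → orc dec E p s = orc dec E p' s

theorem orc_shift [∀ i, Finite (K i)] {dec : List Bool → Query ι K}
    {E : ∀ (m : ℕ) (i : ι), MvPolynomial (Fin m) (K i)} {N : ℕ}
    (hI : ∀ s : List Bool, s.length ≤ N → (dec s).m = m → (dec s).i ∈ I)
    {Y : Finset (List Bool)} {u : W} (hu : false :: sU u ∉ Y)
    {p p' : Cont (K := K) A0 m sU I}
    (h1 : ∀ v, v ≠ sU u → modA A0 sU p'.1.1 v = modA A0 sU p.1.1 v)
    (h2 : ∀ i : I, ∀ y ∈ slice dec m Y i.1, p'.1.2 i y = p.1.2 i y) {s : List Bool} (hs : s ∈ Y)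
    (hN : s.length ≤ N) : orc dec E p' s = orc dec E p s := by
  match s, hs, hN with
  | [], _, _ => rfl
  | false :: v, hs, _ =>
    show modA A0 sU p'.1.1 v = modA A0 sU p.1.1 v
    refine h1 v ?_
    rintro rfl
    exact hu hs
  | true :: s, hs, hN =>
    show (dec s).b _ = (dec s).b _
    have hN' : s.length ≤ N := by
      simp only [List.length_cons] at hN
      omega
    have h3 := hI s hN'
    rcases hq : dec s with ⟨m', i, y, b⟩
    rw [hq] at h3
    by_cases hm : m' = m
    · subst hm
      have hi : i ∈ I := h3 rfl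
      simp only [Function.update_self]
      rw [polyOf_eval p' hi, polyOf_eval p hi, h2 ⟨i, hi⟩ y (mem_slice.2 ⟨s, b, hs, hq⟩)]
    · simp only [Function.update_of_ne hm]

theorem modA_update {A0 : List Bool → Bool} {sU : W → List Bool} (hU : Function.Injective sU)
    (c : W → Bool) (u : W) (t : Bool) (v : List Bool) :
    modA A0 sU (Function.update c u t) v = if v = sU u then t else modA A0 sU c v := by
  by_cases h : ∃ u', sU u' = v
  · obtain ⟨u', rfl⟩ := h
    rw [modA_blk hU, modA_blk hU]
    split_ifs with h1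
    · rw [hU h1, Function.update_self]
    · rw [Function.update_of_ne]
      rintro rfl
      exact h1 rfl
  · rw [modA_not _ h, modA_not _ h, if_neg]
    rintro rfl
    exact h ⟨u, rfl⟩

theorem cont_flip [∀ i, Finite (K i)] {dec : List Bool → Query ι K}
    {E : ∀ (m : ℕ) (i : ι), MvPolynomial (Fin m) (K i)} {N : ℕ}
    (hI : ∀ s : List Bool, s.length ≤ N → (dec s).m = m → (dec s).i ∈ I)
    (hU : Function.Injective sU) {wU : W → (Fin m → Bool)} (hwU : ∀ u, List.ofFn (wU u) = sU u)
    (Y : Finset (List Bool)) (p0 : Cont (K := K) A0 m sU I) (u : W) (a : Finset W)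
    (hu : u ∉ badU dec sU I wU Y) (hua : u ∉ a) :
    (univ.filter (fun p => ctC p = a ∧ ∀ s ∈ Y, agC dec E N s p0 p)).card =
      (univ.filter (fun p => ctC p = insert u a ∧ ∀ s ∈ Y, agC dec E N s p0 p)).card := by
  rw [badU, mem_filter] at hu
  push Not at hu
  obtain ⟨hu1, hu2⟩ := hu (mem_univ u)
  have hex : ∀ i : I, ∃ P : MvPolynomial (Fin m) (K i.1), (∀ j, degreeOf j P ≤ 2) ∧
      (∀ y ∈ slice dec m Y i.1, eval y P = 0) ∧
      ∀ w', eval (bpt w') P = if w' = wU u then 1 else 0 := fun i => exists_flip (hu2 i.1 i.2)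
  choose Q hQ1 hQ2 hQ3 using hex
  have hofn : ∀ w : Fin m → Bool, (List.ofFn w = sU u ↔ w = wU u) := by
    intro w
    rw [← hwU u]
    exact ⟨fun h => List.ofFn_injective h, fun h => by rw [h]⟩
  have hct : ∀ (p : Cont (K := K) A0 m sU I) (b : Finset W), ctC p = b →
      ∀ x, (p.1.1 x = true ↔ x ∈ b) := by
    intro p b hb x
    rw [← hb, ctC, mem_filter]
    simp
  refine Finset.card_bij'
    (fun p hp => ⟨(Function.update p.1.1 u true, fun i y => p.1.2 i y + eval y (Q i)), ?_⟩)
    (fun p hp => ⟨(Function.update p.1.1 u false, fun i y => p.1.2 i y - eval y (Q i)), ?_⟩)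
    ?_ ?_ ?_ ?_
  · intro i
    have hpu : p.1.1 u ≠ true := fun h =>
      hua ((hct p a (mem_filter.1 hp).2.1 u).1 h)
    obtain ⟨P, h1, h2, h3⟩ := p.2 i
    refine ⟨P + Q i, fun j => ?_, fun y => ?_, fun w => ?_⟩
    · exact (degreeOf_add_le _ _ _).trans (max_le (h1 j) (hQ1 i j))
    · rw [map_add, h2]
    · rw [map_add, h3, hQ3, modA_update hU]
      by_cases hw : w = wU u
      · have h4 : modA A0 sU p.1.1 (List.ofFn w) = p.1.1 u := by
          rw [(hofn w).2 hw, modA_blk hU]
        rw [h4, if_neg hpu, if_pos hw, if_pos ((hofn w).2 hw), zero_add, if_pos rfl]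
      · have h5 : ¬ List.ofFn w = sU u := fun h => hw ((hofn w).1 h)
        simp only [if_neg h5, if_neg hw, add_zero]
  · intro i
    have hpu : p.1.1 u = true := by
      refine (hct p _ (mem_filter.1 hp).2.1 u).2 (mem_insert_self _ _)
    obtain ⟨P, h1, h2, h3⟩ := p.2 i
    refine ⟨P - Q i, fun j => ?_, fun y => ?_, fun w => ?_⟩
    · exact (degreeOf_sub_le _ _ _).trans (max_le (h1 j) (hQ1 i j))
    · rw [map_sub, h2]
    · rw [map_sub, h3, hQ3, modA_update hU]
      by_cases hw : w = wU u
      · have h4 : modA A0 sU p.1.1 (List.ofFn w) = p.1.1 u := by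
          rw [(hofn w).2 hw, modA_blk hU]
        rw [h4, if_pos hpu, if_pos hw, if_pos ((hofn w).2 hw), sub_self]
        simp
      · have h5 : ¬ List.ofFn w = sU u := fun h => hw ((hofn w).1 h)
        simp only [if_neg h5, if_neg hw, sub_zero]
  · intro p hp0
    have hp := mem_filter.1 hp0
    refine mem_filter.2 ⟨mem_univ _, ?_, fun s hs hN => ?_⟩
    · ext x
      refine mem_ctC.trans ?_
      show Function.update p.1.1 u true x = true ↔ _
      rw [mem_insert]
      by_cases hx : x = u
      · subst hx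
        simp
      · rw [Function.update_of_ne hx]
        simp only [hx, false_or]
        exact hct p a hp.2.1 x
    · rw [hp.2.2 s hs hN]
      symm
      refine orc_shift hI hu1 (fun v hv => ?_) (fun i y hy => ?_) hs hN
      · exact (modA_update hU _ _ _ _).trans (if_neg hv)
      · show p.1.2 i y + eval y (Q i) = _
        rw [hQ2 i y hy, add_zero]
  · intro p hp0
    have hp := mem_filter.1 hp0
    refine mem_filter.2 ⟨mem_univ _, ?_, fun s hs hN => ?_⟩
    · ext x
      refine mem_ctC.trans ?_
      show Function.update p.1.1 u false x = true ↔ _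
      by_cases hx : x = u
      · subst hx
        simp [hua]
      · rw [Function.update_of_ne hx, hct p _ hp.2.1 x, mem_insert]
        simp [hx]
    · rw [hp.2.2 s hs hN]
      symm
      refine orc_shift hI hu1 (fun v hv => ?_) (fun i y hy => ?_) hs hN
      · exact (modA_update hU _ _ _ _).trans (if_neg hv)
      · show p.1.2 i y - eval y (Q i) = _
        rw [hQ2 i y hy, sub_zero]
  · intro p hp
    have hpu : p.1.1 u ≠ true := fun h => hua ((hct p a (mem_filter.1 hp).2.1 u).1 h)
    refine Subtype.ext (Prod.ext ?_ ?_)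
    · show Function.update (Function.update p.1.1 u true) u false = p.1.1
      rw [Function.update_idem]
      rw [Function.update_eq_self_iff]
      cases h : p.1.1 u
      · rfl
      · exact absurd h hpu
    · funext i y
      show p.1.2 i y + eval y (Q i) - eval y (Q i) = _
      ring
  · intro p hp
    have hpu : p.1.1 u = true := (hct p _ (mem_filter.1 hp).2.1 u).2 (mem_insert_self _ _)
    refine Subtype.ext (Prod.ext ?_ ?_)
    · show Function.update (Function.update p.1.1 u false) u true = p.1.1
      rw [Function.update_idem]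
      rw [Function.update_eq_self_iff]
      exact hpu.symm
    · funext i y
      show p.1.2 i y - eval y (Q i) + eval y (Q i) = _
      ring

end Pool.Agent.Helper99.Alg
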