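import Pool.Agent.Helper99.Alg.Neg

set_option autoImplicit false
set_option linter.unusedSectionVars false

/-!
# An oracle with a multilinear extension relative to which ZPP, R and BPP have complete sets
-/

namespace Pool.Agent.Helper99.Alg

open Finset MvPolynomial Classical Pool.Agent.Helper56.PT

variable {ι : Type} {K : ι → Type} [∀ i, Field (K i)]

/-- the oracle that codes the acceptance of machines with access to its multilinear extension -/
noncomputable def PA (dec : List Bool → Query ι K) (w : List Bool) : Bool :=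
  decide (∃ y, w = true :: y ∧
    KP (Ext dec (fun v => if _ : v.length < w.length then PA dec v else false)
      (fun m _ => mle (fun u : Fin m → Bool =>
        if _ : m < w.length then PA dec (List.ofFn u) else false))) y)
termination_by w.length
decreasing_by
  · assumption
  · rw [List.length_ofFn]; assumption

/-- its multilinear extension -/
noncomputable def PE (dec : List Bool → Query ι K) (m : ℕ) (i : ι) : MvPolynomial (Fin m) (K i) :=
  mle (fun u => PA dec (List.ofFn u))

theorem PA_iff {dec : List Bool → Query ι K} (hdec : ∀ s, (dec s).m ≤ s.length) (y : List Bool) :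
    PA dec (true :: y) = true ↔ KP (Ext dec (PA dec) (PE dec)) y := by
  rw [PA, decide_eq_true_eq]
  have hlow : Low (y.length + 1) (PA dec)
      (fun v => if _ : v.length < (true :: y).length then PA dec v else false) (PE dec)
      (fun m _ => mle (fun u : Fin m → Bool =>
        if _ : m < (true :: y).length then PA dec (List.ofFn u) else false)) := by
    refine ⟨fun w hw => ?_, fun m hm i => ?_⟩
    · show (if _ : w.length < (true :: y).length then PA dec w else false) = PA dec w
      rw [dif_pos (by simpa using hw)]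
    · show mle (fun u : Fin m → Bool =>
        if _ : m < (true :: y).length then PA dec (List.ofFn u) else false) = PE dec m i
      have h1 : m < (true :: y).length := by simpa using hm
      simp only [dif_pos h1]
      rfl
  have hcongr := KP_congr (y := y) (fun v hv => hlow.ext hdec (s := v) (by omega))
  constructor
  · rintro ⟨y', hy', h⟩
    simp only [List.cons.injEq, true_and] at hy'
    subst hy'
    exact hcongr.1 h
  · intro h
    exact ⟨y, rfl, hcongr.2 h⟩

theorem PE_ext (dec : List Bool → Query ι K) : IsExt 1 (PA dec) (PE dec) :=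
  fun _ _ => ⟨fun j => degreeOf_mle _ j, fun w => eval_mle _ w⟩

/-! ### deterministic machines -/

/-- a set decided by a machine that runs in constant time -/
theorem classes_of_const {O : List Bool → Bool} {c : List Bool → Bool} {p : Prog} {n : ℕ}
    (hp : ∀ y r : List Bool, Run O p (Dat.node (enc y) (enc r)) (bit (c y)) n) :
    InZPP O {y | c y = true} ∧ InBPP O {y | c y = true} := by
  have hacc : ∀ y r : List Bool, Accepts O p y r ↔ c y = true := by
    intro y r
    constructor
    · rintro ⟨a, b, k, h⟩
      have h3 := ((hp y r).det h).1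
      cases ho : c y with
      | true => rfl
      | false => rw [ho] at h3; simp [bit] at h3
    · intro ho
      have h := hp y r
      rw [ho] at h
      exact ⟨Dat.leaf, Dat.leaf, n, h⟩
  have hneg : ∀ y r : List Bool, ∃ z, RunLe O (negP p) (Dat.node (enc y) (enc r)) z (n + 4) := by
    intro y r
    have h := hp y r
    cases ho : c y with
    | true =>
      rw [ho] at h
      exact ⟨_, n + 1 + 1, by omega, Run.iteTrue (r := Prog.pair Prog.nil Prog.nil) h (Run.nil _)⟩
    | false =>
      rw [ho] at h
      exact ⟨_, n + (1 + 1 + 1) + 1, by omega, Run.iteFalse (q := Prog.nil) h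
        (Run.pair (Run.nil _) (Run.nil _))⟩
  have htime : ∀ (x : List Bool) (k : ℕ), k ≤ (x.length + 2) ^ k := fun x k =>
    (Nat.lt_two_pow_self).le.trans (Nat.pow_le_pow_left (by omega) k)
  have ht : TimeBd O p 0 n := fun x r _ => ⟨_, n, htime x n, hp x r⟩
  have ht2 : TimeBd O (negP p) 0 (n + 4) := fun x r _ => by
    obtain ⟨z, hz⟩ := hneg x r
    exact ⟨z, hz.mono (htime x (n + 4))⟩
  refine ⟨⟨⟨p, 0, n, ht, fun x => ⟨fun hx => ?_, fun hx => ?_⟩⟩,
    ⟨negP p, 0, n + 4, ht2, fun x => ⟨fun hx => ?_, fun hx => ?_⟩⟩⟩,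
    ⟨p, 0, n, 1 / 4, by norm_num, ht, fun x => ?_⟩⟩
  · rw [Pr_true _ (fun r _ => (hacc x r).2 hx)]
    norm_num
  · exact Pr_false _ (fun r _ h => hx ((hacc x r).1 h))
  · rw [Pr_true _ (fun r _ => (negP_acc (hp x r)).2 (fun h => hx ((hacc x r).1 h)))]
    norm_num
  · refine Pr_false _ (fun r _ h => ?_)
    rw [Set.mem_compl_iff, not_not] at hx
    exact (negP_acc (hp x r)).1 h ((hacc x r).2 hx)
  · have h1 := Pr_true ((x.length + 2) ^ 0)
      (P := fun r => Accepts O p x r ↔ x ∈ {y | c y = true}) (fun r _ => hacc x r)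
    rw [h1]
    norm_num

/-- the positive world -/
theorem pos_world {dec : List Bool → Query ι K} (hdec : ∀ s, (dec s).m ≤ s.length) :
    ∃ (A : List Bool → Bool) (E : ∀ (m : ℕ) (i : ι), MvPolynomial (Fin m) (K i)),
      IsExt 1 A E ∧ ∃ L : Set (List Bool), InZPP A L ∧ InBPP A L ∧ InZPP (Ext dec A E) L ∧
        InBPP (Ext dec A E) L ∧
        ∀ B : Set (List Bool), InR (Ext dec A E) B ∨ InBPP (Ext dec A E) B →
          ∃ f : List Bool → List Bool, PolyFn A f ∧ PolyFn (Ext dec A E) f ∧
            ∀ x, x ∈ B ↔ f x ∈ L := by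
  set O := Ext dec (PA dec) (PE dec) with hO
  have c1 := classes_of_const (O := PA dec) (c := fun y => PA dec (true :: y))
    (p := Prog.comp (Prog.pair (Prog.pair Prog.nil Prog.nil) Prog.hd) Prog.query)
    (fun y r => Run.comp (Run.pair (Run.pair (Run.nil _) (Run.nil _)) (Run.hd _)) (by
      have h := Run.query (O := PA dec) (Dat.node (Dat.node Dat.leaf Dat.leaf) (enc y))
      have e : Dat.node (Dat.node Dat.leaf Dat.leaf) (enc y) = enc (true :: y) := rfl
      rw [e, bitsOf_enc] at h
      exact h))
  have c2 := classes_of_const (O := O) (c := fun y => PA dec (true :: y))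
    (p := Prog.comp (Prog.pair Prog.nil (Prog.pair (Prog.pair Prog.nil Prog.nil) Prog.hd))
      Prog.query)
    (fun y r => Run.comp (Run.pair (Run.nil _) (Run.pair (Run.pair (Run.nil _) (Run.nil _))
      (Run.hd _))) (by
      have h := Run.query (O := O) (Dat.node Dat.leaf
        (Dat.node (Dat.node Dat.leaf Dat.leaf) (enc y)))
      have e : Dat.node Dat.leaf (Dat.node (Dat.node Dat.leaf Dat.leaf) (enc y)) =
        enc (false :: true :: y) := rfl
      rw [e, bitsOf_enc] at h
      exact h))
  refine ⟨PA dec, PE dec, PE_ext dec, {y | PA dec (true :: y) = true}, c1.1, c1.2, c2.1, c2.2,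
    fun B hB => ?_⟩
  have key : ∃ (p : Prog) (k l : ℕ), TimeBd O p k l ∧ ∀ x, x ∈ B ↔
      1 / 2 < Pr ((x.length + 2) ^ k) (Accepts O p x) := by
    rcases hB with ⟨p, k, l, ht, hp⟩ | ⟨p, k, l, e, he, ht, hp⟩
    · refine ⟨p, k, l, ht, fun x => ⟨(hp x).1, fun h => ?_⟩⟩
      by_contra hx
      rw [(hp x).2 hx] at h
      norm_num at h
    · refine ⟨p, k, l, ht, fun x => ?_⟩
      have h1 := hp x
      constructor
      · intro hx
        have h2 : Pr ((x.length + 2) ^ k) (fun r => Accepts O p x r ↔ x ∈ B) =
            Pr ((x.length + 2) ^ k) (Accepts O p x) := Pr_congr (fun r _ => by simp [hx])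
        rw [h2] at h1
        linarith
      · intro h
        by_contra hx
        have h2 : Pr ((x.length + 2) ^ k) (fun r => Accepts O p x r ↔ x ∈ B) =
            Pr ((x.length + 2) ^ k) (fun r => ¬ Accepts O p x r) :=
          Pr_congr (fun r _ => by simp [hx])
        have h3 := Pr_add_not ((x.length + 2) ^ k) (Accepts O p x)
        rw [h2] at h1
        linarith
  obtain ⟨p, k, l, ht, hp⟩ := key
  refine ⟨_, poly_inst (pn p) k l, poly_inst (pn p) k l, fun x => ?_⟩
  show _ ↔ PA dec (true :: inst (pn p) x ((x.length + 2) ^ k) ((x.length + 2) ^ l)) = true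
  rw [PA_iff hdec, KP_inst, hp x]
  rw [Pr_congr (fun r hr => ?_)]
  exact ⟨fun h => acc_time ht hr h, fun h => h.accepts⟩

end Pool.Agent.Helper99.Alg
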