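import Pool.Agent.Helper99.Alg.Ora
import Pool.Agent.Helper99.Alg.Cheb

set_option autoImplicit false
set_option linter.unusedSectionVars false

/-!
# Runs of a Turing reduction to the language of a machine with a gap
-/

namespace Pool.Agent.Helper99.Alg

open Finset MvPolynomial Classical Pool.Agent.Helper56.PT

/-! ### queries of the clocked interpreter -/

/-- the strings looked at by the clocked interpreter -/
noncomputable def qs (O : List Bool → Bool) (T : ℕ) (c x : Dat) : Finset (List Bool) :=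
  (range T).image (fun j => bitsOf (simN O j c x).tl.hd)

theorem qs_card (O : List Bool → Bool) (T : ℕ) (c x : Dat) : (qs O T c x).card ≤ T :=
  card_image_le.trans (by simp)

theorem qs_len {O : List Bool → Bool} {T : ℕ} {c x : Dat} {s : List Bool}
    (hs : s ∈ qs O T c x) : s.length ≤ max c.depth x.depth + 2 + 20 * T := by
  rw [qs, mem_image] at hs
  obtain ⟨j, hj, rfl⟩ := hs
  rw [mem_range] at hj
  have h1 := length_bitsOf_le (simN O j c x).tl.hd
  have h2 := depth_hd (simN O j c x).tl
  have h3 := depth_tl (simN O j c x)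
  have h4 := simN_depth O j c x
  omega

theorem sim_congr {O O' : List Bool → Bool} {T : ℕ} {c x : Dat}
    (h : ∀ s ∈ qs O T c x, O' s = O s) : ∀ j ≤ T, simN O' j c x = simN O j c x := by
  intro j
  induction j with
  | zero => intro _; rfl
  | succ j ih =>
    intro hj
    rw [simN_succ, simN_succ, ih (by omega)]
    exact stepT_congr (h _ (mem_image_of_mem _ (mem_range.2 (by omega))))

theorem qs_congr {O O' : List Bool → Bool} {T : ℕ} {c x : Dat}
    (h : ∀ s ∈ qs O T c x, O' s = O s) : qs O' T c x = qs O T c x := by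
  rw [qs, qs]
  refine image_congr fun j hj => ?_
  rw [mem_coe, mem_range] at hj
  simp only [sim_congr h j hj.le]

/-- the oracle `O` together with the set `L` -/
def join (O : List Bool → Bool) (L : List Bool → Bool) : List Bool → Bool
  | [] => false
  | false :: w => O w
  | true :: w => L w

/-- the data of a Turing reduction to the language of a machine, with an input: `g` runs for `T1`
steps, each query is answered by the vote of `s` runs of `pr` of `T2` steps -/
structure Job where
  g : Prog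
  pr : Prog
  k : ℕ
  q : ℕ
  x : List Bool
  T1 : ℕ
  T2 : ℕ
  R : ℕ
  s : ℕ

namespace Job

variable (J : Job)

/-- the random strings -/
abbrev RS : Type := Fin J.s → (Fin J.R → Bool)

/-- input and random string of a run -/
def inp (z : List Bool) (r : Fin J.R → Bool) : Dat :=
  Dat.node (enc z) (enc ((List.ofFn r).take ((z.length + 2) ^ J.k)))

/-- acceptance of `z` -/
def Acc (O : List Bool → Bool) (z : List Bool) (r : Fin J.R → Bool) : Prop :=
  ∃ a b, simN O J.T2 (code J.pr) (J.inp z r) = Dat.node Dat.leaf (Dat.node (Dat.node a b) Dat.leaf)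

/-- the vote -/
noncomputable def est (O : List Bool → Bool) (ρ : J.RS) (z : List Bool) : Bool :=
  decide ((1 / 2 - 1 / (2 * (J.q : ℝ))) * J.s < (cnt (J.Acc O z) ρ : ℝ))

/-- the clocked run of the reduction with the answers `L` -/
noncomputable def run (O L : List Bool → Bool) : Dat :=
  simN (join O L) J.T1 (code J.g) (enc J.x)

/-- the queries of the reduction with the answers `L` -/
noncomputable def q1 (O L : List Bool → Bool) : Finset (List Bool) :=
  qs (join O L) J.T1 (code J.g) (enc J.x)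

/-- acceptance -/
def Out (O : List Bool → Bool) (ρ : J.RS) : Prop :=
  J.run O (J.est O ρ) = Dat.node Dat.leaf (Dat.node (bit true) Dat.leaf)

/-- the queries of the runs for `z` -/
noncomputable def q2 (O : List Bool → Bool) (ρ : J.RS) (z : List Bool) : Finset (List Bool) :=
  univ.biUnion (fun i => qs O J.T2 (code J.pr) (J.inp z (ρ i)))

/-- all queries to `O` -/
noncomputable def Qr (O : List Bool → Bool) (ρ : J.RS) : Finset (List Bool) :=
  (J.q1 O (J.est O ρ)).biUnion (fun v => match v with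
    | [] => ∅
    | false :: w => {w}
    | true :: z => J.q2 O ρ z)

theorem Qr_card (O : List Bool → Bool) (ρ : J.RS) :
    (J.Qr O ρ).card ≤ J.T1 * (J.s * J.T2 + 1) := by
  rw [Qr]
  refine (card_biUnion_le).trans ?_
  refine (sum_le_card_nsmul _ _ (J.s * J.T2 + 1) (fun v _ => ?_)).trans ?_
  · match v with
    | [] => simp
    | false :: w => simp
    | true :: z =>
      simp only
      refine card_biUnion_le.trans ((sum_le_card_nsmul _ _ J.T2 (fun i _ => qs_card _ _ _ _)).trans
        ?_)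
      simp
  · rw [smul_eq_mul]
    exact Nat.mul_le_mul_right _ (qs_card _ _ _ _)

/-- a bound for the length of the queries of the reduction -/
def len1 : ℕ := (code J.g).depth + J.x.length + 3 + 20 * J.T1

/-- a bound for the length of the queries -/
def len : ℕ := J.len1 + ((code J.pr).depth + J.len1 + J.R + 4 + 20 * J.T2)

theorem q1_len {O L : List Bool → Bool} {v : List Bool} (hv : v ∈ J.q1 O L) :
    v.length ≤ J.len1 := by
  have h1 := qs_len hv
  have h2 := depth_enc_le J.x
  rw [len1]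
  omega

theorem Qr_len {O : List Bool → Bool} {ρ : J.RS} {w : List Bool} (hw : w ∈ J.Qr O ρ) :
    w.length ≤ J.len := by
  rw [Qr, mem_biUnion] at hw
  obtain ⟨v, hv, hw⟩ := hw
  have h1 := J.q1_len hv
  match v, h1, hw with
  | [], _, hw => simp at hw
  | false :: w', h1, hw =>
    simp only [mem_singleton] at hw
    subst hw
    simp only [List.length_cons] at h1
    rw [len]
    omega
  | true :: z, h1, hw =>
    simp only [q2, mem_biUnion] at hw
    obtain ⟨i, _, hw⟩ := hw
    have h2 := qs_len hw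
    have h3 := depth_pair_le z ((List.ofFn (ρ i)).take ((z.length + 2) ^ J.k))
    have h4 : ((List.ofFn (ρ i)).take ((z.length + 2) ^ J.k)).length ≤ J.R := by
      rw [List.length_take, List.length_ofFn]
      exact min_le_right _ _
    simp only [List.length_cons] at h1
    rw [inp] at h2
    rw [len]
    omega

theorem q2_congr {O O' : List Bool → Bool} {ρ : J.RS} {z : List Bool}
    (h : ∀ w ∈ J.q2 O ρ z, O' w = O w) : J.q2 O' ρ z = J.q2 O ρ z ∧ J.est O' ρ z = J.est O ρ z := by
  have h1 : ∀ i, ∀ w ∈ qs O J.T2 (code J.pr) (J.inp z (ρ i)), O' w = O w := fun i w hw =>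
    h w (mem_biUnion.2 ⟨i, mem_univ _, hw⟩)
  constructor
  · rw [q2, q2]
    exact biUnion_congr rfl (fun i _ => qs_congr (h1 i))
  · have h2 : cnt (J.Acc O' z) ρ = cnt (J.Acc O z) ρ := by
      unfold cnt
      congr 1
      ext i
      rw [mem_filter, mem_filter, Acc, Acc, sim_congr (h1 i) _ le_rfl]
    rw [est, est, h2]

theorem det {O O' : List Bool → Bool} {ρ : J.RS} (h : ∀ w ∈ J.Qr O ρ, O' w = O w) :
    J.Qr O' ρ = J.Qr O ρ ∧ (J.Out O' ρ ↔ J.Out O ρ) := by
  have hq2 : ∀ z, true :: z ∈ J.q1 O (J.est O ρ) → ∀ w ∈ J.q2 O ρ z, O' w = O w :=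
    fun z hz w hw => h w (by
      rw [Qr, mem_biUnion]
      exact ⟨true :: z, hz, hw⟩)
  have h1 : ∀ v ∈ J.q1 O (J.est O ρ), join O' (J.est O' ρ) v = join O (J.est O ρ) v := by
    intro v hv
    match v, hv with
    | [], _ => rfl
    | false :: w, hv =>
      show O' w = O w
      refine h w ?_
      rw [Qr, mem_biUnion]
      exact ⟨false :: w, hv, by simp⟩
    | true :: z, hv => exact (J.q2_congr (hq2 z hv)).2
  have hs : J.run O' (J.est O' ρ) = J.run O (J.est O ρ) := sim_congr h1 _ le_rfl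
  have hq : J.q1 O' (J.est O' ρ) = J.q1 O (J.est O ρ) := qs_congr h1
  constructor
  · rw [Qr, Qr, hq]
    refine biUnion_congr rfl (fun v hv => ?_)
    match v, hv with
    | [], _ => rfl
    | false :: w, _ => rfl
    | true :: z, hv => exact (J.q2_congr (hq2 z hv)).1
  · rw [Out, Out, hs]

end Job

/-! ### machines with a gap -/

/-- machine, exponents and gap -/
abbrev GD : Type := Prog × ℕ × ℕ × ℕ

/-- the acceptance probability -/
noncomputable def accP (O : List Bool → Bool) (P : GD) (x : List Bool) : ℝ :=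
  Pr ((x.length + 2) ^ P.2.1) (Accepts O P.1 x)

/-- the machine keeps its time bound and its gap -/
def Alive (O : List Bool → Bool) (P : GD) : Prop :=
  2 ≤ P.2.2.2 ∧ TimeBd O P.1 P.2.1 P.2.2.1 ∧
    ∀ x : List Bool, accP O P x ≤ 1 / 2 - 1 / (P.2.2.2 : ℝ) ∨ 1 / 2 ≤ accP O P x

/-- the language of the machine -/
def Lang (O : List Bool → Bool) (P : GD) : Set (List Bool) := {x | 1 / 2 ≤ accP O P x}

theorem exists_GD_of_BPP {O : List Bool → Bool} {L : Set (List Bool)} (h : InBPP O L) :
    ∃ P : GD, Alive O P ∧ Lang O P = L := by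
  obtain ⟨p, k, l, e, he, ht, hp⟩ := h
  obtain ⟨n, hn⟩ := exists_nat_gt (1 / e)
  have hn2 : 1 / ((n + 2 : ℕ) : ℝ) ≤ e := by
    rw [div_le_iff₀ (by positivity)]
    rw [div_lt_iff₀ he] at hn
    push_cast
    nlinarith
  have key : ∀ x : List Bool, (x ∈ L → 1 / 2 ≤ accP O (p, k, l, n + 2) x) ∧
      (x ∉ L → accP O (p, k, l, n + 2) x ≤ 1 / 2 - 1 / ((n + 2 : ℕ) : ℝ)) := by
    intro x
    have h1 := hp x
    constructor
    · intro hx
      have h2 : Pr ((x.length + 2) ^ k) (fun r => Accepts O p x r ↔ x ∈ L) =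
          accP O (p, k, l, n + 2) x := Pr_congr (fun r _ => by simp [hx])
      rw [h2] at h1
      linarith
    · intro hx
      have h2 : Pr ((x.length + 2) ^ k) (fun r => Accepts O p x r ↔ x ∈ L) =
          Pr ((x.length + 2) ^ k) (fun r => ¬ Accepts O p x r) :=
        Pr_congr (fun r _ => by simp [hx])
      have h3 := Pr_add_not ((x.length + 2) ^ k) (Accepts O p x)
      rw [h2] at h1
      show Pr ((x.length + 2) ^ k) (Accepts O p x) ≤ _
      linarith
  refine ⟨(p, k, l, n + 2), ⟨by simp, ht, fun x => ?_⟩, ?_⟩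
  · by_cases hx : x ∈ L
    · exact Or.inr ((key x).1 hx)
    · exact Or.inl ((key x).2 hx)
  · ext x
    rw [Lang]
    constructor
    · intro hx
      by_contra hn
      have h1 := (key x).2 hn
      have h2 : 1 / 2 ≤ accP O (p, k, l, n + 2) x := hx
      have h3 : (0 : ℝ) < 1 / ((n + 2 : ℕ) : ℝ) := by positivity
      linarith
    · exact (key x).1

theorem exists_GD_of_R {O : List Bool → Bool} {L : Set (List Bool)} (h : InR O L) :
    ∃ P : GD, Alive O P ∧ Lang O P = L := by
  obtain ⟨p, k, l, ht, hp⟩ := h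
  have key : ∀ x : List Bool, (x ∈ L → 1 / 2 ≤ accP O (p, k, l, 2) x) ∧
      (x ∉ L → accP O (p, k, l, 2) x ≤ 1 / 2 - 1 / ((2 : ℕ) : ℝ)) := by
    intro x
    constructor
    · intro hx
      exact ((hp x).1 hx).le
    · intro hx
      have h1 : accP O (p, k, l, 2) x = 0 := (hp x).2 hx
      rw [h1]
      norm_num
  refine ⟨(p, k, l, 2), ⟨by simp, ht, fun x => ?_⟩, ?_⟩
  · by_cases hx : x ∈ L
    · exact Or.inr ((key x).1 hx)
    · exact Or.inl ((key x).2 hx)
  · ext x
    rw [Lang]
    constructor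
    · intro hx
      by_contra hn
      have h1 := (key x).2 hn
      have h2 : 1 / 2 ≤ accP O (p, k, l, 2) x := hx
      norm_num at h1
      linarith
    · exact (key x).1

/-- number of accepting random strings -/
noncomputable def nacc (J : Job) (O : List Bool → Bool) : ℝ :=
  ((univ.filter (fun ρ : J.RS => J.Out O ρ)).card : ℝ)

/-- the characteristic function of a set -/
noncomputable def chi (L : Set (List Bool)) (z : List Bool) : Bool := decide (z ∈ L)

/-- the acceptance of `z` has the right probability -/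
theorem card_Acc {J : Job} {O : List Bool → Bool} {P : GD} (hpr : J.pr = P.1) (hk : J.k = P.2.1)
    (ht : TimeBd O P.1 P.2.1 P.2.2.1) {W : ℕ} {z : List Bool} (hz : z.length ≤ W)
    (hT2 : 3 * (W + 2) ^ P.2.2.1 ≤ J.T2) (hR : (W + 2) ^ P.2.1 ≤ J.R) :
    ((univ.filter (J.Acc O z)).card : ℝ) = accP O P z * Fintype.card (Fin J.R → Bool) := by
  have h1 : (z.length + 2) ^ P.2.1 ≤ J.R := (Nat.pow_le_pow_left (by omega) _).trans hR
  have h0 : accP O P z = Pr J.R (fun r => Accepts O P.1 z (r.take ((z.length + 2) ^ P.2.1))) := by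
    rw [accP, ← Pr_take h1]
  rw [h0, Pr, Nat.card_eq_fintype_card, Fintype.card_subtype]
  have h2 : (Fintype.card (Fin J.R → Bool) : ℝ) = (2 : ℝ) ^ J.R := by simp
  rw [h2, div_mul_cancel₀ _ (by positivity)]
  congr 2
  ext r
  rw [mem_filter, mem_filter]
  refine and_congr_right fun _ => ?_
  have hlen : ((List.ofFn r).take ((z.length + 2) ^ J.k)).length = (z.length + 2) ^ P.2.1 := by
    rw [hk, List.length_take, List.length_ofFn]
    exact min_eq_left h1
  obtain ⟨y, hy⟩ := ht z _ hlen
  have hsim : simN O J.T2 (code J.pr) (J.inp z r) =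
      Dat.node Dat.leaf (Dat.node y Dat.leaf) := by
    rw [hpr]
    refine simN_of_run hy (le_trans ?_ hT2)
    exact Nat.mul_le_mul_left _ (Nat.pow_le_pow_left (by omega) _)
  rw [← hk]
  obtain ⟨c, _, hc⟩ := hy
  constructor
  · rintro ⟨a, b, hab⟩
    rw [hsim] at hab
    simp only [Dat.node.injEq, true_and, and_true] at hab
    rw [hab] at hc
    exact ⟨a, b, c, hc⟩
  · rintro ⟨a, b, n, hn⟩
    have h2 := (hc.det hn).1
    exact ⟨a, b, by rw [hsim, h2]⟩

/-- the vote is wrong with small probability -/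
theorem card_wrong {J : Job} {O : List Bool → Bool} {P : GD} (hpr : J.pr = P.1)
    (hk : J.k = P.2.1) (hq : J.q = P.2.2.2) (ha : Alive O P) {W : ℕ} {z : List Bool}
    (hz : z.length ≤ W) (hT2 : 3 * (W + 2) ^ P.2.2.1 ≤ J.T2) (hR : (W + 2) ^ P.2.1 ≤ J.R)
    (hs : 0 < J.s) :
    ((univ.filter (fun ρ : J.RS => J.est O ρ z ≠ chi (Lang O P) z)).card : ℝ) * J.s ≤
      (J.q : ℝ) ^ 2 * Fintype.card J.RS := by
  have hq2 : (2 : ℝ) ≤ J.q := by rw [hq]; exact_mod_cast ha.1
  have hq0 : (0 : ℝ) < J.q := by linarith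
  have hs0 : (0 : ℝ) < J.s := by exact_mod_cast hs
  set μ := accP O P z with hμ
  set t : ℝ := J.s / (2 * J.q) with ht
  have ht0 : 0 < t := by positivity
  have hc := cheb (J.Acc O z) μ t Fintype.card_pos (card_Acc hpr hk ha.2.1 hz hT2 hR) ht0 J.s
  have hsub : (univ.filter (fun ρ : J.RS => J.est O ρ z ≠ chi (Lang O P) z)) ⊆
      (univ.filter (fun ρ : J.RS => t ≤ |(cnt (J.Acc O z) ρ : ℝ) - J.s * μ|)) := by
    intro ρ hρ
    rw [mem_filter] at hρ ⊢
    refine ⟨mem_univ _, ?_⟩
    have h1 := hρ.2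
    by_contra hn
    push Not at hn
    rw [abs_lt] at hn
    have e1 : (1 / 2 - 1 / (2 * (J.q : ℝ))) * J.s = J.s * (1 / 2) - t := by
      rw [ht]; field_simp
    have e2 : (J.s : ℝ) * (1 / 2 - 1 / J.q) = J.s * (1 / 2) - 2 * t := by
      rw [ht]; field_simp
    rcases ha.2.2 z with h2 | h2
    · have h3 : chi (Lang O P) z = false := by
        rw [chi, decide_eq_false_iff_not]
        intro h4
        have h5 : 1 / 2 ≤ accP O P z := h4
        have : (0 : ℝ) < 1 / P.2.2.2 := by rw [← hq]; positivity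
        linarith
      have h4 : J.est O ρ z = false := by
        rw [Job.est, decide_eq_false_iff_not, e1, not_lt]
        have h5 : (J.s : ℝ) * μ ≤ J.s * (1 / 2 - 1 / J.q) := by
          refine mul_le_mul_of_nonneg_left ?_ hs0.le
          rw [hq]
          exact h2
        linarith [hn.2]
      exact h1 (h4.trans h3.symm)
    · have h3 : chi (Lang O P) z = true := by
        rw [chi, decide_eq_true_eq]
        exact h2
      have h4 : J.est O ρ z = true := by
        rw [Job.est, decide_eq_true_eq, e1]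
        have h5 : (J.s : ℝ) * (1 / 2) ≤ J.s * μ := mul_le_mul_of_nonneg_left h2 hs0.le
        linarith [hn.1]
      exact h1 (h4.trans h3.symm)
  have hle : ((univ.filter (fun ρ : J.RS => J.est O ρ z ≠ chi (Lang O P) z)).card : ℝ) ≤
      ((univ.filter (fun ρ : J.RS => t ≤ |(cnt (J.Acc O z) ρ : ℝ) - J.s * μ|)).card : ℝ) := by
    exact_mod_cast card_le_card hsub
  set N : ℝ := ((univ.filter (fun ρ : J.RS => J.est O ρ z ≠ chi (Lang O P) z)).card : ℝ) with hN
  have hcard : (Fintype.card J.RS : ℝ) = (Fintype.card (Fin J.R → Bool) : ℝ) ^ J.s := by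
    simp [Job.RS]
  have h5 : N * (4 * t ^ 2) ≤ J.s * (Fintype.card J.RS : ℝ) := by
    rw [hcard]
    exact (mul_le_mul_of_nonneg_right hle (by positivity)).trans hc
  have h6 : (4 : ℝ) * t ^ 2 = J.s * (J.s / J.q ^ 2) := by
    rw [ht]; field_simp; norm_num
  rw [h6] at h5
  have h7 : (J.s : ℝ) * (N * (J.s / J.q ^ 2)) ≤ J.s * (Fintype.card J.RS : ℝ) := by linarith
  have h8 := le_of_mul_le_mul_left h7 hs0
  have h9 : N * (J.s / J.q ^ 2) = N * J.s / J.q ^ 2 := by ring
  rw [h9, div_le_iff₀ (by positivity)] at h8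
  linarith

/-- the true outcome -/
def Tru (J : Job) (O : List Bool → Bool) (P : GD) : Prop :=
  J.run O (chi (Lang O P)) = Dat.node Dat.leaf (Dat.node (bit true) Dat.leaf)

/-- few random strings give a wrong outcome -/
theorem card_bad {J : Job} {O : List Bool → Bool} {P : GD} (hpr : J.pr = P.1)
    (hk : J.k = P.2.1) (hq : J.q = P.2.2.2) (ha : Alive O P)
    (hT2 : 3 * (J.len1 + 2) ^ P.2.2.1 ≤ J.T2) (hR : (J.len1 + 2) ^ P.2.1 ≤ J.R)
    (hs : J.s = 4 * J.q ^ 2 * (J.T1 + 1)) :
    ((univ.filter (fun ρ : J.RS => ¬ (J.Out O ρ ↔ Tru J O P))).card : ℝ) ≤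
      1 / 4 * Fintype.card J.RS := by
  have hq2 : 2 ≤ J.q := by rw [hq]; exact ha.1
  have hs0 : 0 < J.s := by rw [hs]; positivity
  have hs0' : (0 : ℝ) < J.s := by exact_mod_cast hs0
  set L := chi (Lang O P) with hL
  set Z : Finset (List Bool) := (J.q1 O L).filter (fun v => ∃ z, v = true :: z) with hZ
  have hsub : (univ.filter (fun ρ : J.RS => ¬ (J.Out O ρ ↔ Tru J O P))) ⊆
      Z.biUnion (fun v => univ.filter (fun ρ : J.RS => J.est O ρ v.tail ≠ L v.tail)) := by
    intro ρ hρ
    rw [mem_filter] at hρ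
    rw [mem_biUnion]
    by_contra hn
    push Not at hn
    have h1 : ∀ v ∈ J.q1 O L, join O (J.est O ρ) v = join O L v := by
      intro v hv
      match v, hv with
      | [], _ => rfl
      | false :: w, _ => rfl
      | true :: z, hv =>
        show J.est O ρ z = L z
        have h2 := hn (true :: z) (mem_filter.2 ⟨hv, z, rfl⟩)
        rw [mem_filter] at h2
        by_contra h3
        exact h2 ⟨mem_univ _, h3⟩
    have h2 : J.run O (J.est O ρ) = J.run O L := sim_congr h1 _ le_rfl
    refine hρ.2 ?_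
    rw [Job.Out, Tru, h2]
  have h1 : ∀ v ∈ Z, ((univ.filter (fun ρ : J.RS => J.est O ρ v.tail ≠ L v.tail)).card : ℝ) ≤
      (J.q : ℝ) ^ 2 * Fintype.card J.RS / J.s := by
    intro v hv
    rw [le_div_iff₀ hs0']
    refine card_wrong (W := J.len1) hpr hk hq ha ?_ hT2 hR hs0
    have h2 := J.q1_len (mem_filter.1 hv).1
    rw [List.length_tail]
    omega
  have h2 : ((univ.filter (fun ρ : J.RS => ¬ (J.Out O ρ ↔ Tru J O P))).card : ℝ) ≤
      ∑ v ∈ Z, ((univ.filter (fun ρ : J.RS => J.est O ρ v.tail ≠ L v.tail)).card : ℝ) := by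
    exact_mod_cast (card_le_card hsub).trans card_biUnion_le
  have h3 : (Z.card : ℝ) ≤ J.T1 + 1 := by
    have : Z.card ≤ J.T1 := (card_filter_le _ _).trans (qs_card _ _ _ _)
    have h4 : (Z.card : ℝ) ≤ J.T1 := by exact_mod_cast this
    linarith
  refine h2.trans ((sum_le_card_nsmul _ _ _ h1).trans ?_)
  rw [nsmul_eq_mul]
  have h4 : (0 : ℝ) ≤ (J.q : ℝ) ^ 2 * Fintype.card J.RS / J.s := by positivity
  refine (mul_le_mul_of_nonneg_right h3 h4).trans (le_of_eq ?_)
  have h5 : (J.s : ℝ) = 4 * J.q ^ 2 * (J.T1 + 1) := by rw [hs]; push_cast; ring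
  have hq0 : (0 : ℝ) < J.q := by exact_mod_cast (by omega : 0 < J.q)
  rw [h5]
  field_simp

/-- a machine that is alive has a gap after the reduction -/
theorem gap_of_alive {J : Job} {O : List Bool → Bool} {P : GD} (hpr : J.pr = P.1)
    (hk : J.k = P.2.1) (hq : J.q = P.2.2.2) (ha : Alive O P)
    (hT2 : 3 * (J.len1 + 2) ^ P.2.2.1 ≤ J.T2) (hR : (J.len1 + 2) ^ P.2.1 ≤ J.R)
    (hs : J.s = 4 * J.q ^ 2 * (J.T1 + 1)) :
    (¬ Tru J O P ∧ nacc J O ≤ 1 / 4 * Fintype.card J.RS) ∨
      (Tru J O P ∧ 3 / 4 * Fintype.card J.RS ≤ nacc J O) := by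
  have h1 := card_bad hpr hk hq ha hT2 hR hs
  by_cases ht : Tru J O P
  · right
    refine ⟨ht, ?_⟩
    have h2 : (univ.filter (fun ρ : J.RS => J.Out O ρ)).card +
        (univ.filter (fun ρ : J.RS => ¬ (J.Out O ρ ↔ Tru J O P))).card =
        Fintype.card J.RS := by
      rw [← card_univ, ← card_filter_add_card_filter_not (s := univ) (fun ρ : J.RS => J.Out O ρ)]
      congr 2
      ext ρ
      simp [ht]
    have h3 : nacc J O + ((univ.filter (fun ρ : J.RS => ¬ (J.Out O ρ ↔ Tru J O P))).card : ℝ) =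
        Fintype.card J.RS := by
      rw [nacc]
      exact_mod_cast h2
    linarith
  · left
    refine ⟨ht, ?_⟩
    refine le_trans (le_of_eq ?_) h1
    rw [nacc]
    congr 2
    ext ρ
    simp [ht]

/-! ### the setup -/

variable {ι : Type} {K : ι → Type} [∀ i, Field (K i)] [∀ i, Finite (K i)]
variable {W : Type} [Fintype W]
variable {A0 : List Bool → Bool} {m : ℕ} {sU : W → List Bool} {I : Finset ι}

/-- the abstract setting of a stage -/
noncomputable def stp (dec : List Bool → Query ι K)
    (E : ∀ (m : ℕ) (i : ι), MvPolynomial (Fin m) (K i)) (J : Job)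
    (hI : ∀ s : List Bool, s.length ≤ J.len → (dec s).m = m → (dec s).i ∈ I)
    (hU : Function.Injective sU) (wU : W → (Fin m → Bool)) (hwU : ∀ u, List.ofFn (wU u) = sU u) :
    Setup (Cont (K := K) A0 m sU I) (List Bool) W J.RS where
  ag := agC dec E J.len
  ag_refl := fun _ _ _ => rfl
  ag_symm := fun _ _ _ h hs => (h hs).symm
  ag_trans := fun _ _ _ _ h h' hs => (h hs).trans (h' hs)
  ct := ctC
  bad := badU dec sU I wU
  bad_mono := fun _ _ h => badU_mono h
  bad_card := fun Y => badU_card hU (fun u u' h => hU (by rw [← hwU, ← hwU, h])) Y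
  flip := fun Y p0 u a hu hua => by
    convert cont_flip hI hU hwU Y p0 u a hu hua
  Q := fun ρ p => J.Qr (orc dec E p) ρ
  out := fun ρ p => J.Out (orc dec E p) ρ
  k := J.T1 * (J.s * J.T2 + 1)
  Q_card := fun _ _ => J.Qr_card _ _
  det := fun ρ p p' h => J.det (fun s hs => (h s hs (J.Qr_len hs)).symm)

end Pool.Agent.Helper99.Alg
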