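import Pool.Agent.Helper99.Alg.Runs

set_option autoImplicit false
set_option linter.unusedSectionVars false

/-!
# One stage of the construction
-/

namespace Pool.Agent.Helper99.Alg

open Finset MvPolynomial Classical Pool.Agent.Helper56.PT

variable {ι : Type} {K : ι → Type} [∀ i, Field (K i)]

instance : Countable GD := inferInstanceAs (Countable (Prog × ℕ × ℕ × ℕ))

/-- numbers of machines -/
noncomputable def nG : GD → ℕ := (Countable.exists_injective_nat GD).choose

theorem nG_injective : Function.Injective nG := (Countable.exists_injective_nat GD).choose_spec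

/-- the default oracle: the blocks `0` are full -/
noncomputable def dfl (w : List Bool) : Bool :=
  decide (∃ (n : ℕ) (y r : List Bool), w = st (kT n false) y r ∧ r.length = (y.length + 2) ^ 3)

/-- block `b` dense, the other block empty -/
def DEA (A : List Bool → Bool) (n : ℕ) (x : List Bool) (b : Bool) : Prop :=
  3 / 4 < Pr ((x.length + 2) ^ 3) (fun r => A (st (kT n b) x r) = true) ∧
    ∀ r : List Bool, r.length = (x.length + 2) ^ 3 → A (st (kT n (!b)) x r) = false

/-- the test language -/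
def Tst (A : List Bool → Bool) (n : ℕ) : Set (List Bool) :=
  {x | ∃ r : List Bool, r.length = (x.length + 2) ^ 3 ∧ A (st (kT n true) x r) = true}

theorem DEA.mem {A : List Bool → Bool} {n : ℕ} {x : List Bool} (h : DEA A n x true) :
    x ∈ Tst A n := by
  obtain ⟨r, hr, h1⟩ := Pr_exists (lt_trans (by norm_num) h.1)
  exact ⟨r, hr, h1⟩

theorem DEA.not_mem {A : List Bool → Bool} {n : ℕ} {x : List Bool} (h : DEA A n x false) :
    x ∉ Tst A n := by
  rintro ⟨r, hr, h1⟩
  have h2 := h.2 r hr
  rw [Bool.not_false] at h2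
  rw [h2] at h1
  exact absurd h1 (by simp)

theorem DEA_congr {A A' : List Bool → Bool} {n : ℕ} {x : List Bool} {b : Bool}
    (h : ∀ (b : Bool) (r : List Bool), r.length = (x.length + 2) ^ 3 →
      A' (st (kT n b) x r) = A (st (kT n b) x r)) (hA : DEA A n x b) : DEA A' n x b := by
  refine ⟨?_, fun r hr => ?_⟩
  · rw [Pr_congr (Q := fun r => A (st (kT n b) x r) = true) (fun r hr => by rw [h b r hr])]
    exact hA.1
  · rw [h _ r hr]
    exact hA.2 r hr

theorem DEA_dfl (n : ℕ) (x : List Bool) : DEA dfl n x false := by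
  refine ⟨?_, fun r hr => ?_⟩
  · rw [Pr_true _ (fun r hr => ?_)]
    · norm_num
    · rw [dfl, decide_eq_true_eq]
      exact ⟨n, x, r, rfl, hr⟩
  · rw [dfl, decide_eq_false_iff_not]
    rintro ⟨n', y, r', h, _⟩
    have h1 := (st_inj h).1
    have h2 := (kT_inj h1).2
    simp at h2

/-- the machine never keeps its time bound and gap -/
def Dead' (dec : List Bool → Query ι K) (L : ℕ) (A : List Bool → Bool)
    (E : ∀ (m : ℕ) (i : ι), MvPolynomial (Fin m) (K i)) (P : GD) : Prop :=
  ∀ A' E', Low L A A' E E' → ¬ Alive (Ext dec A' E') P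

/-- the invariant -/
structure Good (dec : List Bool → Query ι K) (A : List Bool → Bool)
    (E : ∀ (m : ℕ) (i : ι), MvPolynomial (Fin m) (K i)) (L : ℕ) : Prop where
  ext : IsExt 2 A E
  dflt : ∀ w : List Bool, L ≤ w.length → A w = dfl w
  leg : ∀ (P : GD) (x : List Bool), DEA A (nG P) x true ∨ DEA A (nG P) x false ∨ Dead' dec L A E P

/-- the requirement: the test language of `P` is not Turing reducible to the language of `P` by the
program `g` in time `(|x| + 2) ^ e` -/
def ReqA (dec : List Bool → Query ι K) (P : GD) (g : Prog) (e : ℕ) (A : List Bool → Bool)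
    (E : ∀ (m : ℕ) (i : ι), MvPolynomial (Fin m) (K i)) : Prop :=
  Alive (Ext dec A E) P → ¬ ∀ x : List Bool,
    RunLe (join (Ext dec A E) (chi (Lang (Ext dec A E) P))) g (enc x)
      (bit (chi (Tst A (nG P)) x)) ((x.length + 2) ^ e)

theorem Low.trans {L : ℕ} {A A' A'' : List Bool → Bool}
    {E E' E'' : ∀ (m : ℕ) (i : ι), MvPolynomial (Fin m) (K i)} (h : Low L A A' E E')
    (h' : Low L A' A'' E' E'') : Low L A A'' E E'' :=
  ⟨fun w hw => (h'.1 w hw).trans (h.1 w hw), fun m hm i => (h'.2 m hm i).trans (h.2 m hm i)⟩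

theorem Low.mono {L L' : ℕ} {A A' : List Bool → Bool}
    {E E' : ∀ (m : ℕ) (i : ι), MvPolynomial (Fin m) (K i)} (h : Low L' A A' E E') (hL : L ≤ L') :
    Low L A A' E E' :=
  ⟨fun w hw => h.1 w (by omega), fun m hm i => h.2 m (by omega) i⟩

theorem Low.refl (L : ℕ) (A : List Bool → Bool)
    (E : ∀ (m : ℕ) (i : ι), MvPolynomial (Fin m) (K i)) : Low L A A E E :=
  ⟨fun _ _ => rfl, fun _ _ _ => rfl⟩

theorem Dead'.mono {dec : List Bool → Query ι K} {L L' : ℕ} {A A' : List Bool → Bool}
    {E E' : ∀ (m : ℕ) (i : ι), MvPolynomial (Fin m) (K i)} {P : GD} (h : Dead' dec L A E P)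
    (hl : Low L A A' E E') (hL : L ≤ L') : Dead' dec L' A' E' P :=
  fun A'' E'' h'' => h A'' E'' (hl.trans (h''.mono hL))

/-! ### the block -/

/-- the block of the machine number `n` and the input `x` -/
def blk (n : ℕ) (x : List Bool) (d : ℕ) (u : Bool × (Fin d → Bool)) : List Bool :=
  st (kT n u.1) x (List.ofFn u.2)

theorem blk_injective (n : ℕ) (x : List Bool) (d : ℕ) : Function.Injective (blk n x d) := by
  rintro ⟨b, r⟩ ⟨b', r'⟩ h
  obtain ⟨h1, _, h2⟩ := st_inj h
  exact Prod.ext (kT_inj h1).2 (List.ofFn_injective h2)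

/-- the length of the strings in the block -/
def blen (n : ℕ) (x : List Bool) (d : ℕ) : ℕ := 2 * (n + 2) + 2 * x.length + d + 2

theorem blk_length (n : ℕ) (x : List Bool) (d : ℕ) (u : Bool × (Fin d → Bool)) :
    (blk n x d u).length = blen n x d := by
  rw [blk, length_st, blen]
  simp [kT]

theorem exists_wU (n : ℕ) (x : List Bool) (d : ℕ) :
    ∃ wU : Bool × (Fin d → Bool) → (Fin (blen n x d) → Bool),
      ∀ u, List.ofFn (wU u) = blk n x d u := by
  have h : ∀ u, ∃ w : Fin (blen n x d) → Bool, List.ofFn w = blk n x d u := by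
    intro u
    refine ⟨fun j => (blk n x d u).get (Fin.cast (blk_length n x d u).symm j), ?_⟩
    refine List.ext_get (by simp [blk_length]) fun j h1 h2 => ?_
    simp
  choose wU hwU using h
  exact ⟨wU, hwU⟩

/-- one side of the block -/
noncomputable def side (d : ℕ) (b : Bool) : Finset (Bool × (Fin d → Bool)) :=
  univ.image (fun r => (b, r))

theorem side_card (d : ℕ) (b : Bool) : (side d b).card = 2 ^ d := by
  rw [side, card_image_of_injective _ (fun r r' h => (Prod.ext_iff.1 h).2), card_univ]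
  simp

theorem mem_side {d : ℕ} {b : Bool} {u : Bool × (Fin d → Bool)} : u ∈ side d b ↔ u.1 = b := by
  rw [side, mem_image]
  constructor
  · rintro ⟨r, _, rfl⟩; rfl
  · intro h
    exact ⟨u.2, mem_univ _, Prod.ext h.symm rfl⟩

/-- a content with a dense side -/
theorem dea_of_dense {A0 : List Bool → Bool} {n : ℕ} {x : List Bool} {d : ℕ}
    (hd : d = (x.length + 2) ^ 3) {c : Bool × (Fin d → Bool) → Bool} {b : Bool}
    {B : Finset (Bool × (Fin d → Bool))} (hB : B ⊆ side d b) (hc : ∀ u, c u = true ↔ u ∈ B)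
    (hcard : 3 * (side d b).card < 4 * B.card) :
    DEA (modA A0 (blk n x d) c) n x b := by
  have hval : ∀ (b' : Bool) (r : Fin d → Bool),
      modA A0 (blk n x d) c (st (kT n b') x (List.ofFn r)) = c (b', r) := fun b' r =>
    modA_blk (blk_injective n x d) c (b', r)
  constructor
  · rw [← hd, Pr, lt_div_iff₀ (by positivity)]
    have h1 : Nat.card {r : Fin d → Bool //
        modA A0 (blk n x d) c (st (kT n b) x (List.ofFn r)) = true} = B.card := by
      rw [Nat.card_eq_fintype_card, Fintype.card_subtype]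
      refine card_bij' (fun r _ => (b, r)) (fun u _ => u.2) ?_ ?_ ?_ ?_
      · intro r hr
        rw [mem_filter, hval, hc] at hr
        exact hr.2
      · intro u hu
        rw [mem_filter, hval, hc]
        have := mem_side.1 (hB hu)
        exact ⟨mem_univ _, by rw [← this]; exact hu⟩
      · intro r _; rfl
      · intro u hu
        exact Prod.ext (mem_side.1 (hB hu)).symm rfl
    rw [h1]
    rw [side_card] at hcard
    have h2 : ((3 * 2 ^ d : ℕ) : ℝ) < ((4 * B.card : ℕ) : ℝ) := by exact_mod_cast hcard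
    push_cast at h2
    linarith
  · intro r hr
    rw [← hd] at hr
    obtain ⟨r', rfl⟩ : ∃ r' : Fin d → Bool, List.ofFn r' = r := by
      refine ⟨fun j => r.get (Fin.cast hr.symm j), List.ext_get (by simp [hr]) fun j h1 h2 => ?_⟩
      simp
    rw [hval]
    rw [Bool.eq_false_iff]
    intro h
    have h1 := mem_side.1 (hB ((hc _).1 h))
    revert h1
    cases b <;> simp

/-! ### contents as states -/

section contents

variable {W : Type} [Fintype W] {A : List Bool → Bool} {m : ℕ} {sU : W → List Bool} {I : Finset ι}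

theorem modA_len (hlen : ∀ u, (sU u).length = m) {c : W → Bool} {v : List Bool}
    (hv : v.length ≠ m) : modA A sU c v = A v :=
  modA_not c (fun ⟨u, hu⟩ => hv (by rw [← hu, hlen]))

theorem cont_ext {E : ∀ (m : ℕ) (i : ι), MvPolynomial (Fin m) (K i)} (hE : IsExt 2 A E)
    (hlen : ∀ u, (sU u).length = m) (p : Cont (K := K) A m sU I) :
    IsExt 2 (modA A sU p.1.1) (Function.update E m (polyOf p)) := by
  intro m' i
  by_cases hm : m' = m
  · subst hm
    rw [Function.update_self]
    exact ⟨polyOf_deg p i, polyOf_cube p i⟩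
  · rw [Function.update_of_ne hm]
    refine ⟨(hE m' i).1, fun w => ?_⟩
    rw [modA_len hlen (by simpa using hm)]
    exact (hE m' i).2 w

theorem cont_low {E : ∀ (m : ℕ) (i : ι), MvPolynomial (Fin m) (K i)}
    (hlen : ∀ u, (sU u).length = m) (p : Cont (K := K) A m sU I) {L : ℕ} (hL : L ≤ m) :
    Low L A (modA A sU p.1.1) E (Function.update E m (polyOf p)) := by
  refine ⟨fun w hw => modA_len hlen (by omega), fun m' hm' i => ?_⟩
  rw [Function.update_of_ne (by omega)]

/-- the empty content -/
theorem exists_empty [∀ i, Finite (K i)] (A : List Bool → Bool) (m : ℕ) (sU : W → List Bool)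
    (I : Finset ι) : ∃ p : Cont (K := K) A m sU I, ctC p = ∅ := by
  refine ⟨⟨(fun _ => false, fun i y => eval y (mle (fun w => modA A sU (fun _ => false)
    (List.ofFn w)) : MvPolynomial (Fin m) (K i.1))), fun i => ⟨_, fun j =>
      (degreeOf_mle _ j).trans (by norm_num), fun y => rfl, fun w => eval_mle _ w⟩⟩, ?_⟩
  refine eq_empty_of_forall_notMem fun u hu => ?_
  have := mem_ctC.1 hu
  simp at this

end contents

theorem nacc_congr {J : Job} {O O' : List Bool → Bool}
    (h : ∀ s : List Bool, s.length ≤ J.len → O' s = O s) : nacc J O' = nacc J O := by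
  rw [nacc, nacc]
  congr 2
  ext ρ
  rw [mem_filter, mem_filter, (J.det (fun s hs => h s (J.Qr_len hs))).2]

/-- the finitely many fields of the short queries -/
theorem exists_fields (dec : List Bool → Query ι K) (N : ℕ) :
    ∃ I : Finset ι, ∀ s : List Bool, s.length ≤ N → (dec s).i ∈ I :=
  ⟨((List.finite_length_le Bool N).toFinset).image (fun s => (dec s).i), fun s hs =>
    mem_image_of_mem _ (by simpa using hs)⟩

/-- the new state of a content -/
theorem Good.next {dec : List Bool → Query ι K} {A : List Bool → Bool}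
    {E : ∀ (m : ℕ) (i : ι), MvPolynomial (Fin m) (K i)} {L : ℕ} (hG : Good dec A E L) (P : GD)
    {x : List Bool} {d : ℕ} (hd : d = (x.length + 2) ^ 3) (hL : L ≤ x.length) {I : Finset ι}
    (p : Cont (K := K) A (blen (nG P) x d) (blk (nG P) x d) I) {L' : ℕ}
    (hL' : blen (nG P) x d < L')
    (hb : DEA (modA A (blk (nG P) x d) p.1.1) (nG P) x true ∨
      DEA (modA A (blk (nG P) x d) p.1.1) (nG P) x false ∨
      Dead' dec L' (modA A (blk (nG P) x d) p.1.1)
        (Function.update E (blen (nG P) x d) (polyOf p)) P) :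
    Good dec (modA A (blk (nG P) x d) p.1.1)
      (Function.update E (blen (nG P) x d) (polyOf p)) L' := by
  have hlen := blk_length (nG P) x d
  have hLm : L ≤ blen (nG P) x d := by rw [blen]; omega
  refine ⟨cont_ext hG.ext hlen p, fun w hw => ?_, fun P' x' => ?_⟩
  · rw [modA_len hlen (by omega)]
    exact hG.dflt w (by omega)
  · by_cases hne : nG P' = nG P ∧ x' = x
    · rw [nG_injective hne.1, hne.2]
      exact hb
    · have hagr : ∀ (b : Bool) (r : List Bool), r.length = (x'.length + 2) ^ 3 →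
          modA A (blk (nG P) x d) p.1.1 (st (kT (nG P') b) x' r) =
            A (st (kT (nG P') b) x' r) := by
        intro b r _
        refine modA_not _ ?_
        rintro ⟨u, hu⟩
        obtain ⟨h1, h2, _⟩ := st_inj hu
        exact hne ⟨(kT_inj h1).1.symm, h2.symm⟩
      rcases hG.leg P' x' with h | h | h
      · exact Or.inl (DEA_congr hagr h)
      · exact Or.inr (Or.inl (DEA_congr hagr h))
      · exact Or.inr (Or.inr (h.mono (cont_low hlen p hLm) (by omega)))

/-- the requirement of a content -/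
theorem req_of_content {dec : List Bool → Query ι K} (hdec : ∀ s, (dec s).m ≤ s.length)
    {A : List Bool → Bool} {E : ∀ (m : ℕ) (i : ι), MvPolynomial (Fin m) (K i)} {P : GD}
    {g : Prog} {e : ℕ} {J : Job} {x : List Bool} {L' : ℕ} (hJ : J.len ≤ L')
    (hpr : J.pr = P.1) (hk : J.k = P.2.1) (hq : J.q = P.2.2.2) (hg : J.g = g) (hx : J.x = x)
    (hT1 : 3 * (x.length + 2) ^ e ≤ J.T1)
    (hT2 : 3 * (J.len1 + 2) ^ P.2.2.1 ≤ J.T2) (hR : (J.len1 + 2) ^ P.2.1 ≤ J.R)
    (hs : J.s = 4 * J.q ^ 2 * (J.T1 + 1))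
    (h : (x ∈ Tst A (nG P) ∧ nacc J (Ext dec A E) < 3 / 4 * Fintype.card J.RS) ∨
      (x ∉ Tst A (nG P) ∧ 3 / 4 * Fintype.card J.RS ≤ nacc J (Ext dec A E)))
    (hst : ∀ (b : Bool) (r : List Bool), r.length = (x.length + 2) ^ 3 →
      (st (kT (nG P) b) x r).length < L') :
    ∀ A' E', Low L' A A' E E' → ReqA dec P g e A' E' := by
  intro A' E' hl ha hred
  have h1 := hred x
  have h2 : J.run (Ext dec A' E') (chi (Lang (Ext dec A' E') P)) =
      Dat.node Dat.leaf (Dat.node (bit (chi (Tst A' (nG P)) x)) Dat.leaf) := by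
    rw [Job.run, hg, hx]
    exact simN_of_run h1 hT1
  have h3 : nacc J (Ext dec A' E') = nacc J (Ext dec A E) :=
    nacc_congr fun s hs => hl.ext hdec (by omega)
  have hT : x ∈ Tst A' (nG P) ↔ x ∈ Tst A (nG P) := by
    constructor
    · rintro ⟨r, hr, h4⟩
      refine ⟨r, hr, ?_⟩
      rw [← hl.1 _ (hst true r hr)]
      exact h4
    · rintro ⟨r, hr, h4⟩
      refine ⟨r, hr, ?_⟩
      rw [hl.1 _ (hst true r hr)]
      exact h4
  have hgap := gap_of_alive hpr hk hq ha hT2 hR hs
  rw [h3] at hgap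
  have hpos : (0 : ℝ) < Fintype.card J.RS := by exact_mod_cast Fintype.card_pos
  rcases h with ⟨h4, h5⟩ | ⟨h4, h5⟩
  · have h6 : chi (Tst A' (nG P)) x = true := by
      rw [chi, decide_eq_true_eq]
      exact hT.2 h4
    have h7 : Tru J (Ext dec A' E') P := by rw [Tru, h2, h6]
    rcases hgap with h8 | h8
    · exact h8.1 h7
    · exact absurd h8.2 (not_le.2 h5)
  · have h6 : chi (Tst A' (nG P)) x = false := by
      rw [chi, decide_eq_false_iff_not]
      exact fun h => h4 (hT.1 h)
    have h7 : ¬ Tru J (Ext dec A' E') P := by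
      rw [Tru, h2, h6]
      intro h8
      simp [bit] at h8
    rcases hgap with h8 | h8
    · linarith [h8.2]
    · exact h7 h8.1

/-- one stage -/
theorem stage [∀ i, Finite (K i)] {dec : List Bool → Query ι K}
    (hdec : ∀ s, (dec s).m ≤ s.length) {A : List Bool → Bool}
    {E : ∀ (m : ℕ) (i : ι), MvPolynomial (Fin m) (K i)} {L : ℕ} (hG : Good dec A E L)
    (P : GD) (g : Prog) (e : ℕ) :
    ∃ (A' : List Bool → Bool) (E' : ∀ (m : ℕ) (i : ι), MvPolynomial (Fin m) (K i)) (L' : ℕ),
      L < L' ∧ Good dec A' E' L' ∧ Low L A A' E E' ∧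
      ∀ A'' E'', Low L' A' A'' E' E'' → ReqA dec P g e A'' E'' := by
  set q := P.2.2.2 with hq
  set k := P.2.1 with hk
  set l := P.2.2.1 with hl
  obtain ⟨c, hc⟩ := Setup.exists_const 2
  set T1 : ℕ → ℕ := fun n => 3 * (n + 2) ^ e with hT1
  set Wn : ℕ → ℕ := fun n => (code g).depth + n + 3 + 20 * T1 n with hWn
  set T2 : ℕ → ℕ := fun n => 3 * (Wn n + 2) ^ l with hT2
  set ss : ℕ → ℕ := fun n => 4 * q ^ 2 * (T1 n + 1) with hss
  set kk : ℕ → ℕ := fun n => T1 n * (ss n * T2 n + 1) with hkk
  set TT : ℕ → ℕ := fun n => 2 * (2 * kk n + c) with hTT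
  set KK : ℕ → ℕ := fun n => kk n * (TT n + 1) with hKK
  set DD : ℕ → ℕ := fun n => 2 * KK n * (13 * (16 * 2 * KK n) + 1) + kk n with hDD
  have pe : Pol (fun n => (n + 2) ^ e) := ⟨e, fun n => le_rfl⟩
  have pT1 : Pol T1 := (Pol.const 3).mul pe
  have pW : Pol Wn := (((Pol.const _).add Pol.id).add (Pol.const 3)).add ((Pol.const 20).mul pT1)
  have pT2 : Pol T2 := (Pol.const 3).mul ((pW.add (Pol.const 2)).pow l)
  have pss : Pol ss := (Pol.const (4 * q ^ 2)).mul (pT1.add (Pol.const 1))
  have pkk : Pol kk := pT1.mul ((pss.mul pT2).add (Pol.const 1))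
  have pTT : Pol TT := (Pol.const 2).mul (((Pol.const 2).mul pkk).add (Pol.const c))
  have pKK : Pol KK := pkk.mul (pTT.add (Pol.const 1))
  have pDD : Pol DD := Pol.add (Pol.mul ((Pol.const 2).mul pKK)
    (((Pol.const 13).mul ((Pol.const (16 * 2)).mul pKK)).add (Pol.const 1))) pkk
  obtain ⟨n, hLn, hn⟩ := exists_big ((Pol.const 2).mul pDD) L
  set x : List Bool := List.replicate n true with hx
  have hxn : x.length = n := by rw [hx, List.length_replicate]
  set d := (x.length + 2) ^ 3 with hd
  set J : Job := ⟨g, P.1, k, q, x, T1 n, T2 n, (Wn n + 2) ^ k, ss n⟩ with hJ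
  have hlen1 : J.len1 = Wn n := by
    rw [Job.len1, hWn]
    simp only [hJ, hxn]
  set m := blen (nG P) x d with hm
  obtain ⟨wU, hwU⟩ : ∃ wU : Bool × (Fin d → Bool) → (Fin m → Bool),
      ∀ u, List.ofFn (wU u) = blk (nG P) x d u := exists_wU (nG P) x d
  obtain ⟨I, hI⟩ := exists_fields dec J.len
  have hlen : ∀ u, (blk (nG P) x d u).length = m := blk_length (nG P) x d
  set S := stp dec E J (A0 := A) (m := m) (I := I) (fun s hs _ => hI s hs)
    (blk_injective (nG P) x d) wU hwU with hS
  set L' := max m J.len + 1 with hL'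
  have hLm : L ≤ m := by rw [hm, blen]; omega
  have hacc : ∀ p, S.acc p = nacc J (orc dec E p) := fun p => by
    unfold Setup.acc nacc
    congr
  have hT2' : 3 * (J.len1 + 2) ^ P.2.2.1 ≤ J.T2 := by rw [hlen1]
  have hR' : (J.len1 + 2) ^ P.2.1 ≤ J.R := by rw [hlen1]
  -- final step for a content
  have fin : ∀ p : Cont (K := K) A m (blk (nG P) x d) I,
      (DEA (modA A (blk (nG P) x d) p.1.1) (nG P) x true ∨
        DEA (modA A (blk (nG P) x d) p.1.1) (nG P) x false ∨
        Dead' dec L' (modA A (blk (nG P) x d) p.1.1) (Function.update E m (polyOf p)) P) →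
      (∀ A'' E'', Low L' (modA A (blk (nG P) x d) p.1.1) A''
        (Function.update E m (polyOf p)) E'' → ReqA dec P g e A'' E'') →
      ∃ (A' : List Bool → Bool) (E' : ∀ (m : ℕ) (i : ι), MvPolynomial (Fin m) (K i)) (L' : ℕ),
      L < L' ∧ Good dec A' E' L' ∧ Low L A A' E E' ∧
      ∀ A'' E'', Low L' A' A'' E' E'' → ReqA dec P g e A'' E'' := fun p h1 h2 =>
    ⟨_, _, L', by omega, hG.next P hd (by omega) p (by omega) h1, cont_low hlen p hLm, h2⟩
  by_cases hgap : ∀ p, S.acc p ≤ 1 / 4 * Fintype.card J.RS ∨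
      3 / 4 * Fintype.card J.RS ≤ S.acc p
  swap
  · -- the machine can be killed
    push Not at hgap
    obtain ⟨p, hp1, hp2⟩ := hgap
    have hdead : Dead' dec L' (modA A (blk (nG P) x d) p.1.1)
        (Function.update E m (polyOf p)) P := by
      intro A'' E'' hlow ha
      have h1 := gap_of_alive (J := J) rfl rfl rfl ha hT2' hR' rfl
      have h2 : nacc J (Ext dec A'' E'') = S.acc p := by
        rw [hacc]
        exact nacc_congr fun s hs => hlow.ext hdec (by omega)
      rw [h2] at h1
      rcases h1 with h1 | h1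
      · exact absurd h1.2 (not_le.2 hp1)
      · exact absurd h1.2 (not_le.2 hp2)
    exact fin p (Or.inr (Or.inr hdead)) (fun A'' E'' hlow ha => absurd ha (hdead A'' E'' hlow))
  · -- the machine keeps its gap at all contents
    have hR : 0 < Fintype.card J.RS := Fintype.card_pos
    set G : Cont (K := K) A m (blk (nG P) x d) I → Prop :=
      fun p => 3 / 4 * (Fintype.card J.RS : ℝ) ≤ S.acc p with hGd
    have hGap : S.Gap G (1 / 4) (3 / 4) 2 := by
      refine ⟨by norm_num, by norm_num, by norm_num, by norm_num, fun p hp => ?_, fun p hp => hp⟩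
      rcases hgap p with h | h
      · exact h
      · exact absurd h hp
    have hk1 : 1 ≤ kk n := by
      simp only [hkk, hT1]
      have : 0 < (n + 2) ^ e := by positivity
      exact Nat.succ_le_of_lt (Nat.mul_pos (by omega) (by omega))
    have hPar : Setup.Par S.k 2 (TT n) (DD n) (KK n) (13 * (16 * 2 * KK n)) (16 * 2 * KK n) :=
      Setup.exists_par (k := kk n) hk1 (by omega) hc rfl rfl
    have hW4 : ∀ b, 8 * DD n ≤ (side d b).card := by
      intro b
      rw [side_card]
      refine le_trans (by omega) (hn.le.trans (Nat.pow_le_pow_right (by norm_num) ?_))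
      rw [hd, hxn]
      have : n + 2 ≤ (n + 2) ^ 3 := Nat.le_self_pow (by norm_num) _
      omega
    obtain ⟨p0, hp0⟩ := exists_empty (K := K) A m (blk (nG P) x d) I
    have hdst : ∀ (b : Bool) (r : List Bool), r.length = (x.length + 2) ^ 3 →
        (st (kT (nG P) b) x r).length < L' := by
      intro b r hr
      have h1 : (st (kT (nG P) b) x r).length = m := by
        rw [length_st, hm, blen, hr, hd]
        simp [kT]
      omega
    have hcB : ∀ (p : Cont (K := K) A m (blk (nG P) x d) I) (B : Finset (Bool × (Fin d → Bool))),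
        S.ct p = ∅ ∪ B → ∀ u, p.1.1 u = true ↔ u ∈ B := by
      intro p B h u
      rw [empty_union] at h
      rw [← h]
      exact mem_ctC.symm
    by_cases hmaj : Setup.n1 G (S.cls ∅ ∅ p0) ≤ Setup.n0 G (S.cls ∅ ∅ p0)
    · obtain ⟨p, hp, B, hB, hct, hcard⟩ := Setup.exists_dense hGap hPar hR ∅ (side d true)
        (disjoint_empty_right _) (hW4 true) p0 hp0 hmaj
      have hde := dea_of_dense (A0 := A) (n := nG P) (x := x) hd hB (hcB p B hct) hcard
      refine fin p (Or.inl hde) ?_
      refine req_of_content hdec (J := J) (by omega) rfl rfl rfl rfl rfl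
        (by rw [hxn]) hT2' hR' rfl (Or.inl ⟨hde.mem, ?_⟩) hdst
      have h1 : ¬ 3 / 4 * (Fintype.card J.RS : ℝ) ≤ S.acc p := hp
      rw [hacc] at h1
      exact not_le.1 h1
    · have hmaj' : Setup.n1 (fun p => ¬ G p) (S.neg.cls ∅ ∅ p0) ≤
          Setup.n0 (fun p => ¬ G p) (S.neg.cls ∅ ∅ p0) := by
        rw [Setup.n1_neg, Setup.n0_neg]
        exact (not_le.1 hmaj).le
      obtain ⟨p, hp, B, hB, hct, hcard⟩ := Setup.exists_dense (S := S.neg) hGap.neg hPar hR ∅
        (side d false) (disjoint_empty_right _) (hW4 false) p0 hp0 hmaj'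
      have hde := dea_of_dense (A0 := A) (n := nG P) (x := x) hd hB (hcB p B hct) hcard
      refine fin p (Or.inr (Or.inl hde)) ?_
      refine req_of_content hdec (J := J) (by omega) rfl rfl rfl rfl rfl
        (by rw [hxn]) hT2' hR' rfl (Or.inr ⟨hde.not_mem, ?_⟩) hdst
      rw [not_not] at hp
      have h1 : 3 / 4 * (Fintype.card J.RS : ℝ) ≤ S.acc p := hp
      rw [hacc] at h1
      exact h1

end Pool.Agent.Helper99.Alg
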